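import Pool.Agent.H581R3.Core.Bound

set_option autoImplicit false

open Finset
open Pool.Agent.H581R3.Core

namespace Pool.Agent.R721.PN

theorem beads_inj {n N : ℕ} (hnN : n ≤ N) {f g : ℕ → ℕ} (hf : IsPartition n f)
    (hg : IsPartition n g) (hfg : beads N f = beads N g) : f = g := by
  have key : ∀ i, i < N → (∀ k, k < i → f k = g k) → f i = g i := by
    intro i hi hk
    have aux : ∀ f g : ℕ → ℕ, Antitone f → Antitone g → beads N f = beads N g →
        (∀ k, k < i → f k = g k) → f i ≤ g i := by
      intro f g hf hg hfg hk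
      have h1 : beta N f i ∈ beads N g := by
        rw [← hfg]
        unfold beads
        exact mem_image_of_mem _ (mem_range.mpr hi)
      unfold beads at h1
      rw [mem_image] at h1
      obtain ⟨k, hkN, hk'⟩ := h1
      rw [mem_range] at hkN
      have h2 : i ≤ k := by
        by_contra h
        push Not at h
        have h3 := beta_lt hf h hi
        have h4 : beta N g k = beta N f k := by
          unfold beta; rw [hk k h]
        omega
      have h3 : beta N g k ≤ beta N g i := by
        rcases Nat.eq_or_lt_of_le h2 with h4 | h4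
        · rw [h4]
        · exact (beta_lt hg h4 hkN).le
      unfold beta at hk' h3
      omega
    exact le_antisymm (aux f g hf.1 hg.1 hfg hk)
      (aux g f hg.1 hf.1 hfg.symm (fun k h => (hk k h).symm))
  funext i
  by_cases hi : i < N
  · induction i using Nat.strong_induction_on with
    | _ i ih => exact key i hi fun k hk => ih k hk (by omega)
  · rw [hf.2.1 i (by omega), hg.2.1 i (by omega)]

/-- Adding rim hooks of length `t` on `w` different runners to a `t`-core. -/
theorem cores_choose_le (t n w : ℕ) (ht : 0 < t) :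
    t.choose w * numCores t n ≤ numPartitions (n + w * t) := by
  classical
  obtain ⟨N, hN⟩ : ∃ N, N = n + t := ⟨_, rfl⟩
  have hr : ∀ f, IsPartition n f → ∀ r, r < t → r ∈ beads N f := by
    intro f hf r hrt
    unfold beads
    rw [mem_image]
    refine ⟨N - 1 - r, mem_range.mpr (by omega), ?_⟩
    unfold beta
    rw [hf.2.1 _ (by omega)]
    omega
  -- the top bead on runner `r`
  let top : (ℕ → ℕ) → ℕ → ℕ := fun f r => ((beads N f).filter fun x => x % t = r).sup id
  have htop : ∀ f, IsPartition n f → ∀ r, r < t → top f r ∈ beads N f ∧ top f r % t = r ∧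
      top f r + t ∉ beads N f := by
    intro f hf r hrt
    have hne : ((beads N f).filter fun x => x % t = r).Nonempty :=
      ⟨r, mem_filter.mpr ⟨hr f hf r hrt, Nat.mod_eq_of_lt hrt⟩⟩
    have h1 : top f r ∈ (beads N f).filter fun x => x % t = r := by
      obtain ⟨y, hy, hy'⟩ := exists_mem_eq_sup _ hne (id : ℕ → ℕ)
      change ((beads N f).filter fun x => x % t = r).sup id ∈ _
      rw [hy']
      exact hy
    rw [mem_filter] at h1
    refine ⟨h1.1, h1.2, fun h2 => ?_⟩
    have h3 : top f r + t ≤ top f r := by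
      apply le_sup (f := id) (s := (beads N f).filter fun x => x % t = r)
      rw [mem_filter]
      exact ⟨h2, by rw [Nat.add_mod_right]; exact h1.2⟩
    omega
  have hinjt : ∀ f, IsPartition n f → ∀ r, r < t → ∀ s, s < t → top f r = top f s → r = s := by
    intro f hf r hr s hs h
    rw [← (htop f hf r hr).2.1, ← (htop f hf s hs).2.1, h]
  have hne2 : ∀ f, IsPartition n f → ∀ r, r < t → ∀ s, s < t → top f r + t ≠ top f s := by
    intro f hf r hr s hs h
    have h1 := (htop f hf r hr).2.2
    rw [h] at h1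
    exact h1 (htop f hf s hs).1
  let mv : (ℕ → ℕ) → Finset ℕ → Finset ℕ := fun f A =>
    (beads N f \ A.image (top f)) ∪ A.image (fun r => top f r + t)
  have hmv : ∀ f A z, z ∈ mv f A ↔ (z ∈ beads N f ∧ ¬ ∃ r ∈ A, top f r = z) ∨
      ∃ r ∈ A, top f r + t = z := by
    intro f A z
    change z ∈ (beads N f \ A.image (top f)) ∪ A.image (fun r => top f r + t) ↔ _
    rw [mem_union, mem_sdiff, mem_image, mem_image]
  let Z : Set (Finset ℕ) := {Y | Y.card = N ∧ ∑ y ∈ Y, y = (n + w * t) + ∑ i ∈ range N, i}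
  have hZsub : Z ⊆ (beads N) '' {f | IsPartition (n + w * t) f} := by
    rintro Y ⟨h1, h2⟩
    obtain ⟨g, hg1, hg2⟩ := exists_partition Y h1 h2
    exact ⟨g, hg1, hg2⟩
  have hZfin : Z.Finite := ((finite_partitions (n + w * t)).image _).subset hZsub
  have hZcard : Z.ncard ≤ numPartitions (n + w * t) :=
    (Set.ncard_le_ncard hZsub ((finite_partitions (n + w * t)).image _)).trans
      (Set.ncard_image_le (finite_partitions (n + w * t)))
  let D : Set ((ℕ → ℕ) × Finset ℕ) :=
    {f | IsPartition n f ∧ IsCore t f} ×ˢ ((range t).powersetCard w : Finset (Finset ℕ))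
  have hD : D.ncard = numCores t n * t.choose w := by
    rw [Set.ncard_prod, Set.ncard_coe_finset, card_powersetCard, card_range]
    rfl
  have hmap : ∀ p ∈ D, mv p.1 p.2 ∈ Z := by
    rintro ⟨f, A⟩ ⟨⟨hf, hc⟩, hA⟩
    change IsPartition n f at hf
    change IsCore t f at hc
    simp only [mem_coe, mem_powersetCard] at hA
    obtain ⟨hAt, hAc⟩ := hA
    have hlt : ∀ r ∈ A, r < t := fun r hr => mem_range.mp (hAt hr)
    have hinj1 : Set.InjOn (top f) (A : Set ℕ) := fun r hr s hs h =>
      hinjt f hf r (hlt r hr) s (hlt s hs) h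
    have hinj2 : Set.InjOn (fun r => top f r + t) (A : Set ℕ) := fun r hr s hs h =>
      hinjt f hf r (hlt r hr) s (hlt s hs) (by simpa using h)
    have hsub : A.image (top f) ⊆ beads N f := by
      intro z hz
      obtain ⟨r, hr, rfl⟩ := mem_image.mp hz
      exact (htop f hf r (hlt r hr)).1
    have hdisj : Disjoint (beads N f \ A.image (top f)) (A.image (fun r => top f r + t)) := by
      rw [Finset.disjoint_left]
      intro z hz hz2
      obtain ⟨r, hr, rfl⟩ := mem_image.mp hz2
      exact (htop f hf r (hlt r hr)).2.2 (mem_sdiff.mp hz).1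
    refine ⟨?_, ?_⟩
    · change ((beads N f \ A.image (top f)) ∪ A.image (fun r => top f r + t)).card = N
      rw [card_union_of_disjoint hdisj, card_sdiff_of_subset hsub, card_image_of_injOn hinj1,
        card_image_of_injOn hinj2, card_beads hf.1]
      have := card_le_card hsub
      rw [card_image_of_injOn hinj1, card_beads hf.1] at this
      omega
    · change ∑ y ∈ (beads N f \ A.image (top f)) ∪ A.image (fun r => top f r + t), y = _
      rw [sum_union hdisj, sum_image hinj2, sum_add_distrib, sum_const, hAc, smul_eq_mul]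
      have h5 : ∑ x ∈ beads N f \ A.image (top f), x + ∑ x ∈ A.image (top f), x =
          ∑ x ∈ beads N f, x := sum_sdiff hsub
      rw [sum_image hinj1] at h5
      have h6 := sum_beads hf (show n ≤ N by omega)
      omega
  -- the moved beads are characterised
  have hchar : ∀ f A, IsPartition n f → IsCore t f → (∀ r ∈ A, r < t) → ∀ z,
      (z ∈ mv f A ∧ t ≤ z ∧ z - t ∉ mv f A) ↔ ∃ r ∈ A, top f r + t = z := by
    intro f A hf hc hA z
    constructor
    · rintro ⟨hz, htz, hzt⟩
      rcases (hmv f A z).mp hz with ⟨h4, h5⟩ | h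
      · have h6 : z - t ∈ beads N f := push_down hf (show n ≤ N by omega) hc h4 htz
        rw [hmv] at hzt
        push Not at hzt
        have h7 := hzt.1 h6
        obtain ⟨r, hr, hr2⟩ := h7
        exact ⟨r, hr, by omega⟩
      · exact h
    · rintro ⟨r, hr, rfl⟩
      refine ⟨(hmv f A _).mpr (Or.inr ⟨r, hr, rfl⟩), by omega, ?_⟩
      rw [Nat.add_sub_cancel, hmv]
      rintro (⟨-, h⟩ | ⟨s, hs, h⟩)
      · exact h ⟨r, hr, rfl⟩
      · exact hne2 f hf s (hA s hs) r (hA r hr) h
  have hrecA : ∀ f A, IsPartition n f → IsCore t f → (∀ r ∈ A, r < t) → ∀ r,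
      r ∈ A ↔ ∃ z, (z ∈ mv f A ∧ t ≤ z ∧ z - t ∉ mv f A) ∧ z % t = r := by
    intro f A hf hc hA r
    constructor
    · intro hr
      refine ⟨top f r + t, (hchar f A hf hc hA _).mpr ⟨r, hr, rfl⟩, ?_⟩
      rw [Nat.add_mod_right]
      exact (htop f hf r (hA r hr)).2.1
    · rintro ⟨z, hz, hzr⟩
      obtain ⟨s, hs, rfl⟩ := (hchar f A hf hc hA z).mp hz
      rw [Nat.add_mod_right, (htop f hf s (hA s hs)).2.1] at hzr
      rw [← hzr]
      exact hs
  have hrecB : ∀ f A, IsPartition n f → IsCore t f → (∀ r ∈ A, r < t) → ∀ z,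
      z ∈ beads N f ↔ (z ∈ mv f A ∧ ¬ (z ∈ mv f A ∧ t ≤ z ∧ z - t ∉ mv f A)) ∨
        (z + t ∈ mv f A ∧ t ≤ z + t ∧ z + t - t ∉ mv f A) := by
    intro f A hf hc hA z
    rw [hchar f A hf hc hA z, hchar f A hf hc hA (z + t), hmv]
    constructor
    · intro hz
      by_cases h : ∃ r ∈ A, top f r = z
      · right
        obtain ⟨r, hr, hr2⟩ := h
        exact ⟨r, hr, by omega⟩
      · left
        refine ⟨Or.inl ⟨hz, h⟩, ?_⟩
        rintro ⟨r, hr, hr2⟩
        exact (htop f hf r (hA r hr)).2.2 (by rw [hr2]; exact hz)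
    · rintro (⟨h1, h2⟩ | ⟨r, hr, hr2⟩)
      · rcases h1 with h1 | h1
        · exact h1.1
        · exact absurd h1 h2
      · have : top f r = z := by omega
        rw [← this]
        exact (htop f hf r (hA r hr)).1
  have hinj : Set.InjOn (fun p : (ℕ → ℕ) × Finset ℕ => mv p.1 p.2) D := by
    rintro ⟨f, A⟩ ⟨⟨hf, hcf⟩, hA⟩ ⟨g, B⟩ ⟨⟨hg, hcg⟩, hB⟩ heq
    simp only [mem_coe, mem_powersetCard] at hA hB
    have heq' : mv f A = mv g B := heq
    have hltA : ∀ r ∈ A, r < t := fun r hr => mem_range.mp (hA.1 hr)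
    have hltB : ∀ r ∈ B, r < t := fun r hr => mem_range.mp (hB.1 hr)
    have h1 : A = B := by
      ext r
      rw [hrecA f A hf hcf hltA r, hrecA g B hg hcg hltB r, heq']
    have h2 : beads N f = beads N g := by
      ext z
      rw [hrecB f A hf hcf hltA z, hrecB g B hg hcg hltB z, heq']
    have h3 : f = g := beads_inj (show n ≤ N by omega) hf hg h2
    rw [h1, h3]
  have hfin := Set.ncard_le_ncard_of_injOn _ hmap hinj hZfin
  rw [hD] at hfin
  rw [mul_comm]
  exact hfin.trans hZcard

/-- partitions with a part `t` -/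
theorem part_count (n t : ℕ) (ht : 1 ≤ t) :
    {f : ℕ → ℕ | IsPartition n f ∧ ∃ k, f k = t}.ncard ≤ numPartitions (n - t) := by
  classical
  -- the first index with `f k ≤ t`
  let idx : (ℕ → ℕ) → ℕ := fun f => sInf {k | f k ≤ t}
  let rem : (ℕ → ℕ) → (ℕ → ℕ) := fun f i => if i < idx f then f i else f (i + 1)
  have hidx : ∀ f, IsPartition n f → (∃ k, f k = t) → f (idx f) = t ∧ ∀ i, i < idx f → t < f i := by
    intro f hf hk
    obtain ⟨k, hk⟩ := hk
    have hne : {k | f k ≤ t}.Nonempty := ⟨k, hk.le⟩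
    have h1 : f (idx f) ≤ t := Nat.sInf_mem hne
    have h2 : idx f ≤ k := Nat.sInf_le hk.le
    have h3 := hf.1 h2
    refine ⟨by omega, fun i hi => ?_⟩
    by_contra h
    push Not at h
    have := Nat.sInf_le (show i ∈ {k | f k ≤ t} from h)
    change idx f ≤ i at this
    omega
  refine Set.ncard_le_ncard_of_injOn rem ?_ ?_ (finite_partitions _)
  · rintro f ⟨hf, hk⟩
    obtain ⟨h1, h2⟩ := hidx f hf hk
    have hlt : idx f < n := by
      by_contra h
      have := hf.2.1 (idx f) (by omega)
      omega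
    apply isPartition_of_sum (N := n)
    · intro a b hab
      change (if b < idx f then f b else f (b + 1)) ≤ (if a < idx f then f a else f (a + 1))
      by_cases hb : b < idx f
      · rw [if_pos hb, if_pos (by omega)]
        exact hf.1 hab
      · rw [if_neg hb]
        by_cases ha : a < idx f
        · rw [if_pos ha]
          exact hf.1 (by omega)
        · rw [if_neg ha]
          exact hf.1 (by omega)
    · intro i hi
      change (if i < idx f then f i else f (i + 1)) = 0
      rw [if_neg (by omega)]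
      exact hf.2.1 _ (by omega)
    · change ∑ i ∈ range n, (if i < idx f then f i else f (i + 1)) = n - t
      have h3 := hf.sum_range (Nat.le_succ n)
      obtain ⟨m, hm⟩ := Nat.exists_eq_add_of_lt hlt
      have h4 : ∑ i ∈ range n, (if i < idx f then f i else f (i + 1)) =
          ∑ i ∈ range (idx f), f i + ∑ i ∈ range (m + 1), f (idx f + i + 1) := by
        rw [hm, show idx f + m + 1 = idx f + (m + 1) by omega, sum_range_add]
        congr 1
        · apply sum_congr rfl
          intro i hi
          rw [if_pos (mem_range.mp hi)]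
        · apply sum_congr rfl
          intro i _
          rw [if_neg (by omega)]
      have h5 : ∑ i ∈ range (n + 1), f i = ∑ i ∈ range (idx f), f i +
          (∑ i ∈ range (m + 1), f (idx f + i + 1) + f (idx f)) := by
        have h6 : n + 1 = idx f + (m + 1 + 1) := by omega
        rw [h6, sum_range_add, sum_range_succ' (fun x => f (idx f + x))]
        rfl
      rw [Nat.succ_eq_add_one, h5, h1] at h3
      rw [h4]
      omega
  · rintro f ⟨hf, hkf⟩ g ⟨hg, hkg⟩ hfg
    obtain ⟨f1, f2⟩ := hidx f hf hkf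
    obtain ⟨g1, g2⟩ := hidx g hg hkg
    have hrem : ∀ i, (if i < idx f then f i else f (i + 1)) = (if i < idx g then g i else g (i + 1)) :=
      fun i => congrFun hfg i
    have heq : idx f = idx g := by
      rcases lt_trichotomy (idx f) (idx g) with h | h | h
      · have h3 := hrem (idx f)
        rw [if_neg (by omega), if_pos h] at h3
        have h4 := g2 (idx f) h
        have h5 := hf.1 (show idx f ≤ idx f + 1 by omega)
        omega
      · exact h
      · have h3 := hrem (idx g)
        rw [if_neg (show ¬ idx g < idx g by omega), if_pos h] at h3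
        have h4 := f2 (idx g) h
        have h5 := hg.1 (show idx g ≤ idx g + 1 by omega)
        omega
    funext i
    rcases lt_trichotomy i (idx f) with h | h | h
    · have h3 := hrem i
      rw [if_pos h, if_pos (by omega)] at h3
      exact h3
    · rw [h, f1, heq, g1]
    · have h3 := hrem (i - 1)
      rw [if_neg (by omega), if_neg (by omega), Nat.sub_add_cancel (by omega)] at h3
      exact h3

/-- the zeros of type II: `lam` is a core for some part of `mu` -/
def typeIIZeros (n : ℕ) : Set ((ℕ → ℕ) × (ℕ → ℕ)) :=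
  {x | IsPartition n x.1 ∧ IsPartition n x.2 ∧ ∃ k, x.2 k ≠ 0 ∧ IsCore (x.2 k) x.1}

/-- the density of zeros of type II -/
noncomputable def zII (n : ℕ) : ℝ := ((typeIIZeros n).ncard : ℝ) / (numPartitions n : ℝ) ^ 2

theorem typeII_finite (n : ℕ) : (typeIIZeros n).Finite :=
  ((finite_partitions n).prod (finite_partitions n)).subset fun _ hx => ⟨hx.1, hx.2.1⟩

theorem typeII_le (n : ℕ) : (typeIIZeros n).ncard ≤
    ∑ t ∈ Icc 1 n, numCores t n * numPartitions (n - t) := by
  have hfin2 : ∀ t, {f : ℕ → ℕ | IsPartition n f ∧ ∃ k, f k = t}.Finite := fun t =>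
    (finite_partitions n).subset fun _ hf => hf.1
  have h1 : typeIIZeros n ⊆ ⋃ t ∈ Icc 1 n, ({f : ℕ → ℕ | IsPartition n f ∧ IsCore t f} ×ˢ
      {f : ℕ → ℕ | IsPartition n f ∧ ∃ k, f k = t}) := by
    rintro ⟨f, g⟩ ⟨hf, hg, k, hk, hc⟩
    simp only [Set.mem_iUnion, mem_Icc, Set.mem_prod, Set.mem_ofPred_eq]
    change g k ≠ 0 at hk
    have := hg.le k
    exact ⟨g k, ⟨by omega, hg.le k⟩, ⟨hf, hc⟩, hg, k, rfl⟩
  have hfin : (⋃ t ∈ Icc 1 n, ({f : ℕ → ℕ | IsPartition n f ∧ IsCore t f} ×ˢ
      {f : ℕ → ℕ | IsPartition n f ∧ ∃ k, f k = t})).Finite := by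
    apply Set.Finite.biUnion (finite_toSet _)
    intro t _
    exact (finite_cores t n).prod (hfin2 t)
  refine (Set.ncard_le_ncard h1 hfin).trans ?_
  refine (Finset.set_ncard_biUnion_le _ _).trans ?_
  apply sum_le_sum
  intro t ht
  rw [Set.ncard_prod]
  exact Nat.mul_le_mul le_rfl (part_count n t (mem_Icc.mp ht).1)

theorem typeI_subset (n : ℕ) (hn : 1 ≤ n) : typeIZeros n ⊆ typeIIZeros n := by
  rintro ⟨f, g⟩ ⟨hf, hg, hc⟩
  refine ⟨hf, hg, 0, ?_, hc⟩
  intro h0
  change g 0 = 0 at h0
  have h1 : ∑ i ∈ range n, g i = 0 := by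
    apply sum_eq_zero
    intro i _
    have h2 : g i ≤ g 0 := hg.1 (Nat.zero_le i)
    omega
  have h3 : ∑ i ∈ range n, g i = n := hg.2.2
  omega

theorem zI_le_zII (n : ℕ) (hn : 1 ≤ n) : zI n ≤ zII n := by
  unfold zI zII
  apply div_le_div_of_nonneg_right _ (by positivity)
  exact_mod_cast Set.ncard_le_ncard (typeI_subset n hn) (typeII_finite n)

/-- cores for `t` are cores for the multiples of `t` -/
theorem numCores_mul (t l n : ℕ) : numCores t n ≤ numCores (l * t) n := by
  apply Set.ncard_le_ncard _ (finite_cores _ n)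
  rintro f ⟨hf, hc⟩
  exact ⟨hf, fun i j h1 h2 h3 => hc i j h1 h2 ((Dvd.intro_left l rfl).trans h3)⟩

end Pool.Agent.R721.PN
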