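import Pool.Agent.R721.PN.Prod

set_option autoImplicit false

open Finset Filter Topology
open scoped BigOperators

namespace Pool.Agent.R721.PN

lemma one_sub_exp_ge {y : ℝ} (hy : 0 < y) : y / (1 + y) ≤ 1 - Real.exp (-y) := by
  have h1 := Real.add_one_le_exp y
  have h2 : Real.exp (-y) ≤ 1 / (1 + y) := by
    rw [Real.exp_neg, one_div]
    exact inv_anti₀ (by linarith) (by linarith)
  have h3 : y / (1 + y) = 1 - 1 / (1 + y) := by
    field_simp
    ring
  linarith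

lemma cube_le {y : ℝ} (hy : 0 ≤ y) : (1 + y) ^ 3 ≤ 80 * Real.exp (y / 2) := by
  have h1 := Real.pow_div_factorial_le_exp ((1 + y) / 2) (by linarith) 3
  have h2 : Real.exp ((1 + y) / 2) = Real.exp (1 / 2) * Real.exp (y / 2) := by
    rw [← Real.exp_add]; congr 1; ring
  have h3 : Real.exp (1 / 2) ≤ 5 / 3 := by
    have h4 : Real.exp (1 / 2) ^ 2 = Real.exp 1 := by
      rw [← Real.exp_nat_mul]; congr 1; norm_num
    have h5 := Real.exp_one_lt_d9
    have h6 := Real.exp_pos (1 / 2)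
    nlinarith
  have h7 : ((3 : ℕ).factorial : ℝ) = 6 := by norm_num [Nat.factorial]
  rw [h7, h2] at h1
  have h8 := Real.exp_pos (y / 2)
  have h9 : Real.exp (1 / 2) * Real.exp (y / 2) ≤ 5 / 3 * Real.exp (y / 2) :=
    mul_le_mul_of_nonneg_right h3 h8.le
  nlinarith

lemma term_le {x : ℝ} (hx : 0 < x) {j k : ℕ} (hj : 1 ≤ j) (hk : k ≤ 3) :
    (j : ℝ) ^ k * (Real.exp (-x) ^ j / (1 - Real.exp (-x) ^ j) ^ k) ≤
      80 / x ^ k * Real.exp (-(x / 2)) ^ j := by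
  have hj' : (0 : ℝ) < j := by positivity
  set y : ℝ := j * x with hy
  have hy0 : 0 < y := by positivity
  have e1 : Real.exp (-x) ^ j = Real.exp (-y) := by
    rw [← Real.exp_nat_mul]; congr 1; rw [hy]; ring
  have e2 : Real.exp (-(x / 2)) ^ j = Real.exp (-(y / 2)) := by
    rw [← Real.exp_nat_mul]; congr 1; rw [hy]; ring
  rw [e1, e2]
  have h1 := one_sub_exp_ge hy0
  have h2 : 0 < y / (1 + y) := by positivity
  have h3 : (y / (1 + y)) ^ k ≤ (1 - Real.exp (-y)) ^ k := pow_le_pow_left₀ h2.le h1 k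
  have h4 : Real.exp (-y) / (1 - Real.exp (-y)) ^ k ≤ Real.exp (-y) / (y / (1 + y)) ^ k :=
    div_le_div_of_nonneg_left (Real.exp_pos _).le (by positivity) h3
  have h5 : (j : ℝ) ^ k * (Real.exp (-y) / (y / (1 + y)) ^ k) =
      (1 + y) ^ k * Real.exp (-y) / x ^ k := by
    rw [hy]
    rw [div_pow, mul_pow]
    field_simp
  have h6 : (1 + y) ^ k ≤ (1 + y) ^ 3 := pow_le_pow_right₀ (by linarith) hk
  have h7 := cube_le hy0.le
  have h8 : (1 + y) ^ k * Real.exp (-y) ≤ 80 * Real.exp (-(y / 2)) := by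
    have : Real.exp (-(y / 2)) = Real.exp (y / 2) * Real.exp (-y) := by
      rw [← Real.exp_add]; congr 1; ring
    rw [this]
    have := mul_le_mul_of_nonneg_right (h6.trans h7) (Real.exp_pos (-y)).le
    linarith
  calc (j : ℝ) ^ k * (Real.exp (-y) / (1 - Real.exp (-y)) ^ k)
      ≤ (j : ℝ) ^ k * (Real.exp (-y) / (y / (1 + y)) ^ k) :=
        mul_le_mul_of_nonneg_left h4 (by positivity)
    _ = (1 + y) ^ k * Real.exp (-y) / x ^ k := h5
    _ ≤ 80 * Real.exp (-(y / 2)) / x ^ k := by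
        apply div_le_div_of_nonneg_right h8 (by positivity)
    _ = 80 / x ^ k * Real.exp (-(y / 2)) := by ring

lemma geom_le {q : ℝ} (h0 : 0 ≤ q) (h1 : q < 1) (N : ℕ) :
    ∑ j ∈ Icc 1 N, q ^ j ≤ q / (1 - q) := by
  have h2 : ∀ N : ℕ, ∑ j ∈ Icc 1 N, q ^ j = (q - q ^ (N + 1)) / (1 - q) := by
    intro N
    have hne : 1 - q ≠ 0 := by linarith
    induction N with
    | zero => simp
    | succ N ih =>
      rw [sum_Icc_succ_top (by omega), ih]
      field_simp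
      ring
  rw [h2]
  apply div_le_div_of_nonneg_right _ (by linarith)
  have := pow_nonneg h0 (N + 1)
  linarith

lemma exp_half_geom {x : ℝ} (hx : 0 < x) (N : ℕ) :
    ∑ j ∈ Icc 1 N, Real.exp (-(x / 2)) ^ j ≤ 2 / x := by
  have h1 : Real.exp (-(x / 2)) < 1 := by
    rw [Real.exp_lt_one_iff]; linarith
  refine (geom_le (Real.exp_pos _).le h1 N).trans ?_
  rw [div_le_div_iff₀ (by linarith) hx]
  have h2 := Real.add_one_le_exp (x / 2)
  have h3 : Real.exp (-(x / 2)) * Real.exp (x / 2) = 1 := by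
    rw [← Real.exp_add]; simp
  have h4 := Real.exp_pos (-(x / 2))
  nlinarith

lemma moment_le {x : ℝ} (hx : 0 < x) {k : ℕ} (hk : k ≤ 3) (N : ℕ) :
    ∑ j ∈ Icc 1 N, (j : ℝ) ^ k * (Real.exp (-x) ^ j / (1 - Real.exp (-x) ^ j) ^ k) ≤
      160 / x ^ (k + 1) := by
  have h1 : ∑ j ∈ Icc 1 N, (j : ℝ) ^ k * (Real.exp (-x) ^ j / (1 - Real.exp (-x) ^ j) ^ k) ≤
      ∑ j ∈ Icc 1 N, 80 / x ^ k * Real.exp (-(x / 2)) ^ j :=
    sum_le_sum fun j hj => term_le hx (mem_Icc.mp hj).1 hk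
  refine h1.trans ?_
  rw [← mul_sum]
  have h2 := mul_le_mul_of_nonneg_left (exp_half_geom hx N) (by positivity : 0 ≤ 80 / x ^ k)
  refine h2.trans (le_of_eq ?_)
  field_simp
  ring

/-- the closed form -/
lemma hasSum_cos {r : ℝ} (h0 : 0 ≤ r) (h1 : r < 1) (θ : ℝ) :
    HasSum (fun j : ℕ => r ^ j * (1 - Real.cos (j * θ)))
      (r * (1 + r) * (1 - Real.cos θ) / ((1 - r) * ((1 - r) ^ 2 + 2 * r * (1 - Real.cos θ)))) := by
  have hz : ‖zz r θ‖ < 1 := by rw [norm_zz h0]; exact h1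
  have a1 := hasSum_geometric_of_norm_lt_one hz
  have a2 := Complex.hasSum_re a1
  have a3 := (hasSum_geometric_of_lt_one h0 h1).sub a2
  have hcos := Real.cos_le_one θ
  have hpos : 0 < 1 - r := by linarith
  have hden : 0 < (1 - r) ^ 2 + 2 * r * (1 - Real.cos θ) := by
    have : 0 ≤ 2 * r * (1 - Real.cos θ) := mul_nonneg (by linarith) (by linarith)
    positivity
  have e1 : (1 - zz r θ)⁻¹.re = (1 - r * Real.cos θ) / ((1 - r) ^ 2 + 2 * r * (1 - Real.cos θ)) := by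
    rw [Complex.inv_re]
    have hre : (1 - zz r θ).re = 1 - r * Real.cos θ := by
      unfold zz
      rw [Complex.sub_re, Complex.one_re, Complex.re_ofReal_mul, Complex.exp_ofReal_mul_I_re]
    have him : (1 - zz r θ).im = - (r * Real.sin θ) := by
      unfold zz
      rw [Complex.sub_im, Complex.one_im, Complex.im_ofReal_mul, Complex.exp_ofReal_mul_I_im]
      ring
    rw [Complex.normSq_apply, hre, him]
    congr 1
    have := Real.sin_sq_add_cos_sq θ
    linear_combination r ^ 2 * this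
  have e2 : (1 - r)⁻¹ - (1 - zz r θ)⁻¹.re =
      r * (1 + r) * (1 - Real.cos θ) / ((1 - r) * ((1 - r) ^ 2 + 2 * r * (1 - Real.cos θ))) := by
    rw [e1]
    have h5 := hpos.ne'
    have h6 := hden.ne'
    obtain ⟨D, hD⟩ : ∃ D, D = (1 - r) ^ 2 + 2 * r * (1 - Real.cos θ) := ⟨_, rfl⟩
    rw [← hD] at h6 ⊢
    field_simp
    rw [hD]
    ring
  rw [e2] at a3
  refine a3.congr_fun ?_ |> fun h => h
  intro j
  have : (zz r θ ^ j).re = r ^ j * Real.cos (j * θ) := by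
    have h3 : zz r θ ^ j = ((r ^ j : ℝ) : ℂ) * Complex.exp (((j * θ : ℝ) : ℂ) * Complex.I) := by
      unfold zz
      rw [mul_pow, ← Complex.exp_nat_mul]
      push_cast
      congr 2
      ring
    rw [h3, Complex.re_ofReal_mul, Complex.exp_ofReal_mul_I_re]
  rw [this]
  ring

lemma sum_cos_ge {r : ℝ} (h0 : 0 ≤ r) (h1 : r < 1) (θ : ℝ) (N : ℕ) :
    r * (1 + r) * (1 - Real.cos θ) / ((1 - r) * ((1 - r) ^ 2 + 2 * r * (1 - Real.cos θ))) -
      2 * r ^ (N + 1) / (1 - r) ≤ ∑ j ∈ Icc 1 N, r ^ j * (1 - Real.cos (j * θ)) := by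
  have a1 := hasSum_cos h0 h1 θ
  have a2 := a1.summable.sum_add_tsum_nat_add (N + 1)
  rw [a1.tsum_eq] at a2
  have e1 : ∑ i ∈ range (N + 1), r ^ i * (1 - Real.cos (i * θ)) =
      ∑ j ∈ Icc 1 N, r ^ j * (1 - Real.cos (j * θ)) := by
    rw [range_eq_Ico, sum_eq_sum_Ico_succ_bot (by omega)]
    simp only [Nat.cast_zero, zero_mul, Real.cos_zero, sub_self, mul_zero, zero_add]
    rfl
  have hg : HasSum (fun i : ℕ => 2 * r ^ (N + 1) * r ^ i) (2 * r ^ (N + 1) * (1 - r)⁻¹) :=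
    (hasSum_geometric_of_lt_one h0 h1).mul_left _
  have e2 : ∑' i : ℕ, r ^ (i + (N + 1)) * (1 - Real.cos ((i + (N + 1) : ℕ) * θ)) ≤
      2 * r ^ (N + 1) * (1 - r)⁻¹ := by
    rw [← hg.tsum_eq]
    apply Summable.tsum_le_tsum _ ((summable_nat_add_iff (N + 1)).mpr a1.summable) hg.summable
    intro i
    have h2 := Real.neg_one_le_cos ((i + (N + 1) : ℕ) * θ)
    have h3 : 0 ≤ r ^ (i + (N + 1)) := pow_nonneg h0 _
    calc r ^ (i + (N + 1)) * (1 - Real.cos ((i + (N + 1) : ℕ) * θ))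
        ≤ r ^ (i + (N + 1)) * 2 := mul_le_mul_of_nonneg_left (by linarith) h3
      _ = 2 * r ^ (N + 1) * r ^ i := by rw [pow_add]; ring
  rw [e1] at a2
  have e3 : 2 * r ^ (N + 1) / (1 - r) = 2 * r ^ (N + 1) * (1 - r)⁻¹ := by rw [div_eq_mul_inv]
  rw [e3]
  linarith

end Pool.Agent.R721.PN
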