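import Pool.Agent.R721.PN.Gen

set_option autoImplicit false

open Finset Filter Topology MeasureTheory
open scoped BigOperators Interval
open Pool.Agent.H581R3.Core

namespace Pool.Agent.R721.PN

/-- the point `r e^{iθ}` -/
noncomputable def zz (r θ : ℝ) : ℂ := (r : ℂ) * Complex.exp (θ * Complex.I)

lemma norm_zz {r : ℝ} (hr : 0 ≤ r) (θ : ℝ) : ‖zz r θ‖ = r := by
  unfold zz
  rw [norm_mul, Complex.norm_exp_ofReal_mul_I, mul_one, Complex.norm_real, Real.norm_eq_abs,
    abs_of_nonneg hr]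

/-- the real part of the twisted generating function -/
noncomputable def HH (N m : ℕ) (r θ : ℝ) : ℝ :=
  (FN N (zz r θ) * Complex.exp (-(m * θ : ℝ) * Complex.I)).re

lemma hasSum_HH (N m : ℕ) {r : ℝ} (hr0 : 0 ≤ r) (hr1 : r < 1) (θ : ℝ) :
    HasSum (fun l : ℕ => (pc N l : ℝ) * r ^ l * Real.cos (((l : ℝ) - m) * θ)) (HH N m r θ) := by
  have h1 := gen_complex N (z := zz r θ) (by rw [norm_zz hr0]; exact hr1)
  have h2 := h1.mul_right (Complex.exp (-(m * θ : ℝ) * Complex.I))
  have h3 := Complex.hasSum_re h2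
  unfold HH
  refine h3.congr_fun ?_ |> fun h => h
  intro l
  have e1 : ((pc N l : ℝ) : ℂ) * zz r θ ^ l * Complex.exp (-(m * θ : ℝ) * Complex.I) =
      (((pc N l : ℝ) * r ^ l : ℝ) : ℂ) * Complex.exp (((((l : ℝ) - m) * θ : ℝ) : ℂ) * Complex.I) := by
    unfold zz
    rw [mul_pow, ← Complex.exp_nat_mul, mul_assoc, mul_assoc, ← Complex.exp_add]
    push_cast
    rw [mul_assoc]
    congr 3
    ring
  rw [e1, Complex.re_ofReal_mul, Complex.exp_ofReal_mul_I_re]

lemma integral_cos_mul (k : ℤ) (hk : k ≠ 0) : ∫ θ in (0 : ℝ)..Real.pi, Real.cos (k * θ) = 0 := by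
  have hk' : (k : ℝ) ≠ 0 := by exact_mod_cast hk
  rw [intervalIntegral.integral_comp_mul_left (fun x => Real.cos x) hk', integral_cos, mul_zero,
    Real.sin_zero, Real.sin_int_mul_pi, sub_zero, smul_zero]

/-- the coefficient formula -/
lemma coeff_formula (N m : ℕ) {r : ℝ} (hr0 : 0 ≤ r) (hr1 : r < 1) :
    ∫ θ in (0 : ℝ)..Real.pi, HH N m r θ = Real.pi * ((pc N m : ℝ) * r ^ m) := by
  have hsum := gen_real N hr0 hr1
  have key := intervalIntegral.hasSum_integral_of_dominated_convergence (μ := volume)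
    (a := 0) (b := Real.pi)
    (F := fun (l : ℕ) (θ : ℝ) => (pc N l : ℝ) * r ^ l * Real.cos (((l : ℝ) - m) * θ))
    (f := fun θ => HH N m r θ)
    (fun (l : ℕ) (_ : ℝ) => (pc N l : ℝ) * r ^ l)
    (fun l => by
      apply Continuous.aestronglyMeasurable
      fun_prop)
    (fun l => by
      refine Eventually.of_forall fun θ _ => ?_
      rw [Real.norm_eq_abs, abs_mul, abs_of_nonneg (by positivity : (0:ℝ) ≤ (pc N l : ℝ) * r ^ l)]
      exact mul_le_of_le_one_right (by positivity) (Real.abs_cos_le_one _))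
    (Eventually.of_forall fun θ _ => hsum)
    (by
      exact _root_.intervalIntegrable_const)
    (Eventually.of_forall fun θ _ => hasSum_HH N m hr0 hr1 θ)
  have hterm : ∀ l : ℕ, ∫ θ in (0 : ℝ)..Real.pi,
      (pc N l : ℝ) * r ^ l * Real.cos (((l : ℝ) - m) * θ) =
      if l = m then Real.pi * ((pc N m : ℝ) * r ^ m) else 0 := by
    intro l
    rw [intervalIntegral.integral_const_mul]
    by_cases h : l = m
    · subst h
      rw [if_pos rfl]
      simp
      ring
    · rw [if_neg h]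
      have h1 := integral_cos_mul ((l : ℤ) - m) (by omega)
      push_cast at h1
      rw [h1, mul_zero]
  simp only [hterm] at key
  exact key.unique (hasSum_ite_eq m _)

end Pool.Agent.R721.PN
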