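import Pool.Agent.H581R3.Core.Bound

set_option autoImplicit false

open Finset Filter Topology
open scoped BigOperators
open Pool.Agent.H581R3.Core

namespace Pool.Agent.R721.PN

/-- the number of partitions of `m` with parts at most `N` -/
noncomputable def pc (N m : ℕ) : ℕ := {f : ℕ → ℕ | IsPartition m f ∧ f 0 ≤ N}.ncard

lemma fin_pc (N m : ℕ) : {f : ℕ → ℕ | IsPartition m f ∧ f 0 ≤ N}.Finite :=
  (finite_partitions m).subset fun _ hf => hf.1

lemma pc_eq {N m : ℕ} (h : m ≤ N) : pc N m = numPartitions m := by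
  unfold pc numPartitions
  congr 1
  ext f
  constructor
  · exact fun hf => hf.1
  · exact fun hf => ⟨hf, (hf.le 0).trans h⟩

/-- adding a first part -/
lemma cons_partition {m t : ℕ} {g : ℕ → ℕ} (hg : IsPartition m g) (ht : g 0 ≤ t) :
    IsPartition (m + t) (fun i => if i = 0 then t else g (i - 1)) := by
  apply isPartition_of_sum (N := m + 1)
  · intro a b hab
    change (if b = 0 then t else g (b - 1)) ≤ (if a = 0 then t else g (a - 1))
    by_cases ha : a = 0
    · rw [if_pos ha]
      by_cases hb : b = 0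
      · rw [if_pos hb]
      · rw [if_neg hb]
        exact (hg.1 (Nat.zero_le _)).trans ht
    · have hb : b ≠ 0 := by omega
      rw [if_neg ha, if_neg hb]
      exact hg.1 (by omega)
  · intro i hi
    change (if i = 0 then t else g (i - 1)) = 0
    rw [if_neg (by omega)]
    exact hg.2.1 _ (by omega)
  · rw [sum_range_succ']
    simp only [Nat.add_eq_zero_iff, one_ne_zero, and_false, if_false, Nat.add_sub_cancel, if_true]
    rw [hg.2.2]

lemma pc_first {m t : ℕ} (htm : t ≤ m) :
    {f : ℕ → ℕ | IsPartition m f ∧ f 0 = t}.ncard = pc t (m - t) := by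
  unfold pc
  apply le_antisymm
  · refine Set.ncard_le_ncard_of_injOn (fun f i => f (i + 1)) ?_ ?_ (fin_pc _ _)
    · rintro f ⟨hf, rfl⟩
      exact ⟨hf.shift, hf.1 (Nat.zero_le _)⟩
    · rintro f ⟨hf, hf0⟩ g ⟨hg, hg0⟩ hfg
      funext i
      cases i with
      | zero => rw [hf0, hg0]
      | succ i => exact congrFun hfg i
  · refine Set.ncard_le_ncard_of_injOn (fun g i => if i = 0 then t else g (i - 1)) ?_ ?_
      (finite_first m t)
    · rintro g ⟨hg, hg0⟩
      have := cons_partition hg hg0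
      rw [Nat.sub_add_cancel htm] at this
      exact ⟨this, rfl⟩
    · rintro f ⟨hf, hf0⟩ g ⟨hg, hg0⟩ hfg
      funext i
      have := congrFun hfg (i + 1)
      simpa using this

lemma pc_succ (N m : ℕ) :
    pc (N + 1) m = pc N m + if N + 1 ≤ m then pc (N + 1) (m - (N + 1)) else 0 := by
  have h1 : {f : ℕ → ℕ | IsPartition m f ∧ f 0 ≤ N + 1} =
      {f : ℕ → ℕ | IsPartition m f ∧ f 0 ≤ N} ∪ {f : ℕ → ℕ | IsPartition m f ∧ f 0 = N + 1} := by
    ext f
    simp only [Set.mem_union, Set.mem_ofPred_eq]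
    constructor
    · rintro ⟨h1, h2⟩
      rcases Nat.lt_or_ge (f 0) (N + 1) with h | h
      · exact Or.inl ⟨h1, by omega⟩
      · exact Or.inr ⟨h1, by omega⟩
    · rintro (⟨h1, h2⟩ | ⟨h1, h2⟩)
      · exact ⟨h1, by omega⟩
      · exact ⟨h1, by omega⟩
  have h2 : pc (N + 1) m = pc N m + {f : ℕ → ℕ | IsPartition m f ∧ f 0 = N + 1}.ncard := by
    unfold pc
    rw [h1, Set.ncard_union_eq ?_ (fin_pc N m) (finite_first m (N + 1))]
    rw [Set.disjoint_left]
    rintro f ⟨-, h1⟩ ⟨-, h2⟩
    omega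
  rw [h2]
  congr 1
  by_cases h : N + 1 ≤ m
  · rw [if_pos h, pc_first h]
  · rw [if_neg h]
    rw [Set.ncard_eq_zero (finite_first m (N + 1))]
    rw [Set.eq_empty_iff_forall_notMem]
    rintro f ⟨hf, hf0⟩
    have := hf.le 0
    omega

lemma pc_zero (m : ℕ) : pc 0 m = if m = 0 then 1 else 0 := by
  unfold pc
  by_cases h : m = 0
  · subst h
    rw [if_pos rfl, Set.ncard_eq_one]
    refine ⟨fun _ => 0, ?_⟩
    ext f
    simp only [Set.mem_ofPred_eq, Set.mem_singleton_iff]
    constructor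
    · rintro ⟨h1, h2⟩
      funext i
      exact h1.2.1 i (Nat.zero_le _)
    · rintro rfl
      exact ⟨⟨fun _ _ _ => le_rfl, fun _ _ => rfl, by simp⟩, le_rfl⟩
  · rw [if_neg h, Set.ncard_eq_zero (fin_pc 0 m), Set.eq_empty_iff_forall_notMem]
    rintro f ⟨h1, h2⟩
    apply h
    rw [← h1.2.2]
    apply sum_eq_zero
    intro i _
    have := h1.1 (Nat.zero_le i)
    omega

/-- one step of the generating function -/
lemma gen_step {a b : ℕ → ℝ} {N : ℕ} (hN : 0 < N) (ha : ∀ m, 0 ≤ a m)
    (hb0 : ∀ m, 0 ≤ b m) (hb : ∀ m, b m = a m + if N ≤ m then b (m - N) else 0) {r : ℝ}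
    (hr0 : 0 ≤ r) (hr1 : r < 1) (hs : Summable fun m => a m * r ^ m) :
    Summable fun m => b m * r ^ m := by
  have hrN : r ^ N < 1 := pow_lt_one₀ hr0 hr1 (by omega)
  apply summable_of_sum_range_le (c := (∑' m, a m * r ^ m) / (1 - r ^ N))
  · intro m; exact mul_nonneg (hb0 m) (pow_nonneg hr0 m)
  · intro n
    rw [le_div_iff₀ (by linarith)]
    have h1 : ∑ m ∈ range n, b m * r ^ m = ∑ m ∈ range n, a m * r ^ m +
        ∑ m ∈ range n, (if N ≤ m then b (m - N) else 0) * r ^ m := by
      rw [← sum_add_distrib]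
      apply sum_congr rfl
      intro m _
      rw [hb m]
      rw [← hb m]
      rw [← add_mul, ← hb m]
    have h2 : ∑ m ∈ range n, (if N ≤ m then b (m - N) else 0) * r ^ m ≤
        r ^ N * ∑ m ∈ range n, b m * r ^ m := by
      have h3 : ∑ m ∈ range n, (if N ≤ m then b (m - N) else 0) * r ^ m ≤
          ∑ m ∈ range (n + N), (if N ≤ m then b (m - N) else 0) * r ^ m := by
        apply sum_le_sum_of_subset_of_nonneg (range_subset_range.mpr (by omega))
        intro i _ _
        split_ifs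
        · exact mul_nonneg (hb0 _) (pow_nonneg hr0 _)
        · simp
      refine h3.trans (le_of_eq ?_)
      rw [add_comm n N, sum_range_add, mul_sum]
      have h4 : ∑ m ∈ range N, (if N ≤ m then b (m - N) else 0) * r ^ m = 0 := by
        apply sum_eq_zero
        intro i hi
        rw [if_neg (by have := mem_range.mp hi; omega), zero_mul]
      rw [h4, zero_add]
      apply sum_congr rfl
      intro i _
      rw [if_pos (by omega), Nat.add_sub_cancel_left, pow_add]
      ring
    have h5 : ∑ m ∈ range n, a m * r ^ m ≤ ∑' m, a m * r ^ m :=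
      hs.sum_le_tsum _ (fun i _ => mul_nonneg (ha i) (pow_nonneg hr0 i))
    nlinarith

lemma gen_step_sum {a b : ℕ → ℝ} {N : ℕ} (hN : 0 < N)
    (hb : ∀ m, b m = a m + if N ≤ m then b (m - N) else 0) {z : ℂ} (hz : ‖z‖ < 1)
    (hs : Summable fun m => (b m : ℂ) * z ^ m) {A : ℂ}
    (hA : HasSum (fun m => (a m : ℂ) * z ^ m) A) :
    HasSum (fun m => (b m : ℂ) * z ^ m) (A * (1 - z ^ N)⁻¹) := by
  have hne : 1 - z ^ N ≠ 0 := by
    intro h
    have h1 : z ^ N = 1 := by linear_combination -h
    have h2 : ‖z ^ N‖ < 1 := by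
      rw [norm_pow]
      exact pow_lt_one₀ (norm_nonneg z) hz (by omega)
    rw [h1, norm_one] at h2
    exact lt_irrefl _ h2
  have h1 := hs.hasSum
  set B := ∑' m, (b m : ℂ) * z ^ m with hB
  have h2 : HasSum (fun m => (if N ≤ m then (b (m - N) : ℂ) else 0) * z ^ m) (z ^ N * B) := by
    have h3 : HasSum (fun m => z ^ N * ((b m : ℂ) * z ^ m)) (z ^ N * B) := h1.mul_left _
    have h4 := (hasSum_nat_add_iff (f := fun m => (if N ≤ m then (b (m - N) : ℂ) else 0) * z ^ m) N
      (g := z ^ N * B)).mp (by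
        refine h3.congr_fun ?_ |> fun h => h
        intro m
        rw [if_pos (by omega), Nat.add_sub_cancel, pow_add]
        ring)
    have h5 : ∑ i ∈ range N, (if N ≤ i then (b (i - N) : ℂ) else 0) * z ^ i = 0 := by
      apply sum_eq_zero
      intro i hi
      rw [if_neg (by have := mem_range.mp hi; omega), zero_mul]
    rw [h5, add_zero] at h4
    exact h4
  have h6 : HasSum (fun m => (b m : ℂ) * z ^ m) (A + z ^ N * B) := by
    have := hA.add h2
    refine this.congr_fun ?_ |> fun h => h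
    intro m
    have := hb m
    rw [← add_mul]
    congr 1
    rw [this]
    split_ifs <;> push_cast <;> ring
  have h7 : B = A + z ^ N * B := h1.unique h6
  have h8 : B = A * (1 - z ^ N)⁻¹ := by
    field_simp
    linear_combination h7
  rw [← h8]
  exact h1

/-- the truncated generating product -/
noncomputable def FN (N : ℕ) (z : ℂ) : ℂ := ∏ j ∈ Icc 1 N, (1 - z ^ j)⁻¹

noncomputable def FR (N : ℕ) (r : ℝ) : ℝ := ∏ j ∈ Icc 1 N, (1 - r ^ j)⁻¹

lemma FN_succ (N : ℕ) (z : ℂ) : FN (N + 1) z = FN N z * (1 - z ^ (N + 1))⁻¹ := by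
  unfold FN
  rw [prod_Icc_succ_top (by omega)]

lemma FN_ofReal (N : ℕ) (r : ℝ) : FN N (r : ℂ) = (FR N r : ℂ) := by
  unfold FN FR
  push_cast
  rfl

lemma FR_pos (N : ℕ) {r : ℝ} (hr0 : 0 ≤ r) (hr1 : r < 1) : 0 < FR N r := by
  unfold FR
  apply prod_pos
  intro j hj
  have h1 : r ^ j < 1 := pow_lt_one₀ hr0 hr1 (by have := (mem_Icc.mp hj).1; omega)
  exact inv_pos.mpr (by linarith)

lemma gen_real (N : ℕ) {r : ℝ} (hr0 : 0 ≤ r) (hr1 : r < 1) :
    Summable fun m => (pc N m : ℝ) * r ^ m := by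
  induction N with
  | zero =>
    apply summable_of_ne_finset_zero (s := {0})
    intro m hm
    rw [pc_zero, if_neg (by simpa using hm)]
    simp
  | succ N ih =>
    refine gen_step (a := fun m => (pc N m : ℝ)) (b := fun m => (pc (N + 1) m : ℝ)) (N := N + 1)
      (by omega) (fun m => by positivity) (fun m => by positivity) ?_ hr0 hr1 ih
    intro m
    have := pc_succ N m
    rw [this]
    split_ifs <;> push_cast <;> rfl

lemma gen_complex_summable (N : ℕ) {z : ℂ} (hz : ‖z‖ < 1) :
    Summable fun m => ((pc N m : ℝ) : ℂ) * z ^ m := by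
  apply Summable.of_norm
  have := gen_real N (norm_nonneg z) hz
  refine this.congr ?_
  intro m
  rw [norm_mul, norm_pow, Complex.norm_real, Real.norm_eq_abs, abs_of_nonneg (by positivity)]

lemma gen_complex (N : ℕ) {z : ℂ} (hz : ‖z‖ < 1) :
    HasSum (fun m => ((pc N m : ℝ) : ℂ) * z ^ m) (FN N z) := by
  induction N with
  | zero =>
    have h1 : FN 0 z = 1 := by simp [FN]
    rw [h1]
    have := hasSum_single (f := fun m => ((pc 0 m : ℝ) : ℂ) * z ^ m) 0 (fun m hm => by
      rw [pc_zero, if_neg hm]; simp)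
    rw [pc_zero, if_pos rfl] at this
    simpa using this
  | succ N ih =>
    rw [FN_succ]
    refine gen_step_sum (a := fun m => (pc N m : ℝ)) (b := fun m => (pc (N + 1) m : ℝ))
      (N := N + 1) (by omega) ?_ hz (gen_complex_summable (N + 1) hz) ih
    intro m
    have := pc_succ N m
    rw [this]
    split_ifs <;> push_cast <;> rfl

end Pool.Agent.R721.PN
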