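import Pool.Agent.R721.PN.Sum

set_option autoImplicit false

open Finset Filter Topology
open Pool.Agent.H581R3.Core

namespace Pool.Agent.R721.PN

theorem zII_nonneg (n : ℕ) : 0 ≤ zII n := by
  unfold zII
  positivity

theorem zI_nonneg (n : ℕ) : 0 ≤ zI n := by
  unfold zI
  positivity

theorem zII_le_one (n : ℕ) : zII n ≤ 1 := by
  unfold zII
  have hP : (0 : ℝ) < numPartitions n := by exact_mod_cast numPartitions_pos n
  rw [div_le_one (by positivity)]
  have h1 : typeIIZeros n ⊆ {f : ℕ → ℕ | IsPartition n f} ×ˢ {f : ℕ → ℕ | IsPartition n f} :=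
    fun _ hx => ⟨hx.1, hx.2.1⟩
  have h2 := Set.ncard_le_ncard h1 ((finite_partitions n).prod (finite_partitions n))
  rw [Set.ncard_prod] at h2
  rw [sq]
  exact_mod_cast h2

/-- the density of the zeros of type II is `O(1 / log n)` -/
theorem zII_bound : ∃ C : ℝ, ∀ n : ℕ, 2 ≤ n → zII n ≤ C / Real.log n := by
  obtain ⟨C0, hC0, n0, hreg⟩ := regularity
  set C := max C0 1 with hC
  set n1 := max n0 30000 with hn1
  refine ⟨max (4000 * C ^ 2) (Real.log n1), ?_⟩
  intro n hn
  have hlogpos : 0 < Real.log n := Real.log_pos (by exact_mod_cast hn)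
  rcases Nat.lt_or_ge n n1 with h | h
  · refine (zII_le_one n).trans ?_
    rw [le_div_iff₀ hlogpos, one_mul]
    refine le_trans ?_ (le_max_right _ _)
    apply Real.log_le_log (by positivity)
    exact_mod_cast h.le
  · obtain ⟨x, hx0, hx1, hx2, hx3⟩ := hreg n ((le_max_left _ _).trans h)
    have hn3 : 30000 ≤ n := (le_max_right _ _).trans h
    have hn3' : (30000 : ℝ) ≤ n := by exact_mod_cast hn3
    have hs : 0 < Real.sqrt n := Real.sqrt_pos.mpr (by linarith)
    have hss : Real.sqrt n * Real.sqrt n = n := Real.mul_self_sqrt (by linarith)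
    have hs170 : 170 ≤ Real.sqrt n := by
      rw [Real.le_sqrt (by norm_num) (by linarith)]
      linarith
    have hxq : x ≤ 1 / 4 := by
      refine hx2.trans ?_
      rw [div_le_div_iff₀ hs (by norm_num)]
      linarith
    have h1x : 1 / x ≤ 4 * Real.sqrt n := by
      rw [div_le_iff₀ (by positivity)] at hx1
      rw [div_le_iff₀ hx0]
      linarith
    have hxn : 1 / x ≤ n := by nlinarith
    have hCge : C0 ≤ C := le_max_left _ _
    have hC1 : 1 ≤ C := le_max_right _ _
    have key := zII_at (C := C) hC1 hx0 hxq hxn (fun m hm => by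
      refine (hx3 m hm).trans ?_
      apply mul_le_mul_of_nonneg_right _ (by positivity)
      exact mul_le_mul_of_nonneg_right hCge (Real.exp_pos _).le)
    have hlog : Real.log n / 4 ≤ Real.log (1 / x) := by
      have h2 : Real.sqrt n / 13 ≤ 1 / x := by
        rw [div_le_div_iff₀ (by norm_num) hx0]
        rw [le_div_iff₀ hs] at hx2
        linarith
      have h3 : Real.log (Real.sqrt n / 13) ≤ Real.log (1 / x) :=
        Real.log_le_log (by positivity) h2
      have h4 : Real.log (Real.sqrt n / 13) = Real.log n / 2 - Real.log 13 := by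
        rw [Real.log_div hs.ne' (by norm_num), Real.log_sqrt (by linarith)]
      have h5 : Real.log 13 ≤ Real.log n / 4 := by
        have h6 : Real.log ((13 : ℝ) ^ 4) ≤ Real.log n := by
          apply Real.log_le_log (by norm_num)
          norm_num
          linarith
        rw [Real.log_pow] at h6
        push_cast at h6
        linarith
      linarith
    refine key.trans ?_
    have h6 : 1000 * C ^ 2 / Real.log (1 / x) ≤ 1000 * C ^ 2 / (Real.log n / 4) :=
      div_le_div_of_nonneg_left (by positivity) (by positivity) hlog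
    refine h6.trans ?_
    have h7 : 1000 * C ^ 2 / (Real.log n / 4) = 4000 * C ^ 2 / Real.log n := by
      field_simp
      norm_num
    rw [h7]
    exact div_le_div_of_nonneg_right (le_max_left _ _) hlogpos.le

theorem tendsto_zII : Tendsto zII atTop (𝓝 0) := by
  obtain ⟨C, hC⟩ := zII_bound
  have h1 : Tendsto (fun n : ℕ => C / Real.log n) atTop (𝓝 0) :=
    (Real.tendsto_log_atTop.comp tendsto_natCast_atTop_atTop).const_div_atTop C
  refine tendsto_of_tendsto_of_tendsto_of_le_of_le' tendsto_const_nhds h1
    (Eventually.of_forall zII_nonneg) ?_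
  filter_upwards [eventually_ge_atTop 2] with n hn using hC n hn

theorem tendsto_zI : Tendsto zI atTop (𝓝 0) := by
  refine tendsto_of_tendsto_of_tendsto_of_le_of_le' tendsto_const_nhds tendsto_zII
    (Eventually.of_forall zI_nonneg) ?_
  filter_upwards [eventually_ge_atTop 1] with n hn using zI_le_zII n hn

end Pool.Agent.R721.PN
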