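import Pool.Agent.R721.PN.Four

set_option autoImplicit false

open Finset Filter Topology
open scoped BigOperators

namespace Pool.Agent.R721.PN

/-- terms of the centred logarithm -/
noncomputable def gt (ρ α : ℝ) (n : ℕ) : ℂ :=
  ((ρ ^ n / n : ℝ) : ℂ) * (Complex.exp ((n * α : ℝ) * Complex.I) - 1 - ((n * α : ℝ) : ℂ) * Complex.I)

/-- the centred logarithm -/
noncomputable def gg (ρ α : ℝ) : ℂ :=
  -Complex.log (1 - (ρ : ℂ) * Complex.exp (α * Complex.I)) + Complex.log (1 - (ρ : ℂ)) -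
    ((α * (ρ / (1 - ρ)) : ℝ) : ℂ) * Complex.I

lemma hasSum_geom_pos {ρ : ℝ} (h0 : 0 ≤ ρ) (h1 : ρ < 1) :
    HasSum (fun n : ℕ => ρ ^ n / n * n) (ρ / (1 - ρ)) := by
  have h2 := hasSum_geometric_of_lt_one h0 h1
  have h3 : HasSum (fun n : ℕ => ρ ^ n - if n = 0 then 1 else 0) ((1 - ρ)⁻¹ - 1) :=
    h2.sub (hasSum_ite_eq 0 1)
  have h4 : (1 - ρ)⁻¹ - 1 = ρ / (1 - ρ) := by
    have : 1 - ρ ≠ 0 := by linarith
    field_simp
    ring
  rw [h4] at h3
  refine h3.congr_fun ?_ |> fun h => h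
  intro n
  rcases Nat.eq_zero_or_pos n with h | h
  · subst h; simp
  · have : (n : ℝ) ≠ 0 := by positivity
    rw [if_neg (by omega)]
    field_simp
    ring

lemma hasSum_gt {ρ : ℝ} (h0 : 0 ≤ ρ) (h1 : ρ < 1) (α : ℝ) : HasSum (gt ρ α) (gg ρ α) := by
  have hw : ‖(ρ : ℂ) * Complex.exp (α * Complex.I)‖ < 1 := by
    rw [norm_mul, Complex.norm_exp_ofReal_mul_I, mul_one, Complex.norm_real, Real.norm_eq_abs,
      abs_of_nonneg h0]
    exact h1
  have hρ : ‖(ρ : ℂ)‖ < 1 := by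
    rw [Complex.norm_real, Real.norm_eq_abs, abs_of_nonneg h0]
    exact h1
  have a1 := Complex.hasSum_taylorSeries_neg_log hw
  have a2 := Complex.hasSum_taylorSeries_neg_log hρ
  have a3 : HasSum (fun n : ℕ => (((ρ ^ n / n * n : ℝ)) : ℂ) * ((α : ℂ) * Complex.I))
      (((ρ / (1 - ρ) : ℝ) : ℂ) * ((α : ℂ) * Complex.I)) :=
    (Complex.hasSum_ofReal.mpr (hasSum_geom_pos h0 h1)).mul_right _
  have a4 := (a1.sub a2).sub a3
  have e1 : gg ρ α = -Complex.log (1 - (ρ : ℂ) * Complex.exp (α * Complex.I)) -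
      -Complex.log (1 - (ρ : ℂ)) - ((ρ / (1 - ρ) : ℝ) : ℂ) * ((α : ℂ) * Complex.I) := by
    unfold gg
    push_cast
    ring
  rw [e1]
  refine a4.congr_fun ?_ |> fun h => h
  intro n
  unfold gt
  rw [mul_pow, ← Complex.exp_nat_mul]
  push_cast
  have : (n : ℂ) * ((α : ℂ) * Complex.I) = (n : ℂ) * (α : ℂ) * Complex.I := by ring
  rw [this]
  ring

lemma gt_re (ρ α : ℝ) (n : ℕ) : (gt ρ α n).re = -(ρ ^ n / n * (1 - Real.cos (n * α))) := by
  unfold gt
  rw [Complex.re_ofReal_mul, Complex.sub_re, Complex.sub_re, Complex.exp_ofReal_mul_I_re,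
    Complex.one_re, Complex.re_ofReal_mul, Complex.I_re]
  ring

lemma gt_im (ρ α : ℝ) (n : ℕ) : (gt ρ α n).im = ρ ^ n / n * (Real.sin (n * α) - n * α) := by
  unfold gt
  rw [Complex.im_ofReal_mul, Complex.sub_im, Complex.sub_im, Complex.exp_ofReal_mul_I_im,
    Complex.one_im, Complex.im_ofReal_mul, Complex.I_im]
  ring

lemma gg_re_le {ρ : ℝ} (h0 : 0 ≤ ρ) (h1 : ρ < 1) (α : ℝ) :
    (gg ρ α).re ≤ -(ρ * (1 - Real.cos α)) := by
  have h2 := Complex.hasSum_re (hasSum_gt h0 h1 α)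
  have h3 : HasSum (fun n => -(gt ρ α n).re) (-(gg ρ α).re) := h2.neg
  have h4 := sum_le_hasSum {1} (fun n _ => by
    rw [gt_re, neg_neg]
    have := Real.cos_le_one (n * α)
    exact mul_nonneg (by positivity) (by linarith)) h3
  rw [sum_singleton, gt_re] at h4
  simp only [neg_neg, pow_one, Nat.cast_one, div_one, one_mul] at h4
  linarith

lemma gg_re_ge {ρ : ℝ} (h0 : 0 ≤ ρ) (h1 : ρ < 1) (α : ℝ) :
    -(α ^ 2 / 2 * (ρ / (1 - ρ) ^ 2)) ≤ (gg ρ α).re := by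
  have h2 := Complex.hasSum_re (hasSum_gt h0 h1 α)
  have h3 := (hasSum_coe_mul_geometric_of_norm_lt_one (𝕜 := ℝ) (r := ρ) (by
    rw [Real.norm_eq_abs, abs_of_nonneg h0]; exact h1)).mul_left (-(α ^ 2 / 2))
  have h4 := hasSum_le (fun n => ?_) h3 h2
  · linarith
  · rw [gt_re]
    have h5 := Real.one_sub_sq_div_two_le_cos (x := n * α)
    rcases Nat.eq_zero_or_pos n with h | h
    · subst h; simp
    · have hn : (0 : ℝ) < n := by positivity
      have h6 : ρ ^ n / n * (1 - Real.cos (n * α)) ≤ ρ ^ n / n * ((n * α) ^ 2 / 2) :=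
        mul_le_mul_of_nonneg_left (by linarith) (by positivity)
      have h7 : ρ ^ n / n * ((n * α) ^ 2 / 2) = α ^ 2 / 2 * (n * ρ ^ n) := by
        field_simp
      linarith

lemma abs_sin_sub (y : ℝ) : |Real.sin y - y| ≤ 2 * |y| ^ 3 := by
  have main : ∀ y : ℝ, 0 < y → |Real.sin y - y| ≤ 2 * y ^ 3 := by
    intro y hy
    have h1 := Real.sin_gt_sub_cube hy
    have h2 := Real.sin_lt hy
    rw [abs_of_neg (by linarith)]
    have h3 : 0 < y ^ 3 := by positivity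
    linarith
  rcases lt_trichotomy y 0 with h | h | h
  · have := main (-y) (by linarith)
    rw [Real.sin_neg] at this
    rw [abs_of_neg h]
    rw [show -Real.sin y - -y = -(Real.sin y - y) by ring, abs_neg] at this
    exact this
  · subst h; simp
  · have := main y h
    rwa [abs_of_pos h]

lemma hasSum_choose {ρ : ℝ} (h0 : 0 ≤ ρ) (h1 : ρ < 1) :
    HasSum (fun n : ℕ => ((n + 1).choose 2 : ℝ) * ρ ^ n) (ρ / (1 - ρ) ^ 3) := by
  have h2 := (hasSum_choose_mul_geometric_of_norm_lt_one 2 (r := ρ) (by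
    rw [Real.norm_eq_abs, abs_of_nonneg h0]; exact h1)).mul_left ρ
  have h3 := (hasSum_nat_add_iff (f := fun n : ℕ => ((n + 1).choose 2 : ℝ) * ρ ^ n) 1
    (g := ρ * (1 / (1 - ρ) ^ (2 + 1)))).mp (by
      refine h2.congr_fun ?_ |> fun h => h
      intro n
      rw [pow_succ]
      ring)
  have h4 : ρ * (1 / (1 - ρ) ^ (2 + 1)) + ∑ i ∈ range 1, ((i + 1).choose 2 : ℝ) * ρ ^ i =
      ρ / (1 - ρ) ^ 3 := by
    rw [sum_range_one]
    simp
    ring
  rw [h4] at h3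
  exact h3

lemma gg_im_le {ρ : ℝ} (h0 : 0 ≤ ρ) (h1 : ρ < 1) (α : ℝ) :
    |(gg ρ α).im| ≤ 4 * |α| ^ 3 * (ρ / (1 - ρ) ^ 3) := by
  have h2 := Complex.hasSum_im (hasSum_gt h0 h1 α)
  have h3 := (hasSum_choose h0 h1).mul_left (4 * |α| ^ 3)
  refine HasSum.norm_le_of_bounded h2 h3 fun n => ?_
  rw [gt_im, Real.norm_eq_abs, abs_mul, abs_of_nonneg (by positivity : (0:ℝ) ≤ ρ ^ n / n)]
  have h4 := abs_sin_sub (n * α)
  rw [abs_mul, Nat.abs_cast] at h4
  rcases Nat.eq_zero_or_pos n with h | h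
  · subst h; simp
  · have hn : (0 : ℝ) < n := by positivity
    have h5 : ρ ^ n / n * |Real.sin (n * α) - n * α| ≤ ρ ^ n / n * (2 * (n * |α|) ^ 3) :=
      mul_le_mul_of_nonneg_left h4 (by positivity)
    have h6 : ρ ^ n / n * (2 * (n * |α|) ^ 3) = 2 * |α| ^ 3 * ((n : ℝ) ^ 2 * ρ ^ n) := by
      field_simp
    have h7 : (n : ℝ) ^ 2 ≤ 2 * ((n + 1).choose 2 : ℝ) := by
      have : ((n + 1).choose 2 : ℝ) = (n + 1) * n / 2 := by
        rw [Nat.cast_choose_two]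
        push_cast
        ring
      rw [this]
      nlinarith
    have h8 : (n : ℝ) ^ 2 * ρ ^ n ≤ 2 * ((n + 1).choose 2 : ℝ) * ρ ^ n :=
      mul_le_mul_of_nonneg_right h7 (by positivity)
    have h9 : 0 ≤ 2 * |α| ^ 3 := by positivity
    nlinarith

end Pool.Agent.R721.PN
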