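import Pool.Agent.R721.PN.Est

set_option autoImplicit false

open Finset Filter Topology MeasureTheory
open scoped BigOperators Interval

namespace Pool.Agent.R721.PN

lemma exp_neg_le_inv {u : ℝ} (hu : 0 < u) : Real.exp (-u) ≤ 1 / u := by
  have h1 := Real.add_one_le_exp u
  rw [Real.exp_neg, one_div]
  exact inv_anti₀ hu (by linarith)

lemma exp_neg_le_sq {u : ℝ} (hu : 0 < u) : Real.exp (-u) ≤ 2 / u ^ 2 := by
  have h1 := Real.pow_div_factorial_le_exp u hu.le 2
  have h7 : ((2 : ℕ).factorial : ℝ) = 2 := by norm_num [Nat.factorial]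
  rw [h7] at h1
  rw [Real.exp_neg]
  have h2 : 2 / u ^ 2 = (u ^ 2 / 2)⁻¹ := by rw [inv_div]
  rw [h2]
  exact inv_anti₀ (by positivity) h1

lemma exp_neg_le_cube {u : ℝ} (hu : 0 < u) : Real.exp (-u) ≤ 6 / u ^ 3 := by
  have h1 := Real.pow_div_factorial_le_exp u hu.le 3
  have h7 : ((3 : ℕ).factorial : ℝ) = 6 := by norm_num [Nat.factorial]
  rw [h7] at h1
  rw [Real.exp_neg]
  have h2 : 6 / u ^ 3 = (u ^ 3 / 6)⁻¹ := by rw [inv_div]
  rw [h2]
  exact inv_anti₀ (by positivity) h1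

lemma one_sub_cos_ge {θ : ℝ} (h0 : 0 ≤ θ) (h1 : θ ≤ Real.pi) :
    2 * θ ^ 2 / Real.pi ^ 2 ≤ 1 - Real.cos θ := by
  have h2 := Real.mul_le_sin (x := θ / 2) (by linarith) (by linarith)
  have h3 : 1 - Real.cos θ = 2 * Real.sin (θ / 2) ^ 2 := by
    have := Real.cos_sq' (θ / 2)
    have h4 := Real.cos_two_mul (θ / 2)
    rw [show 2 * (θ / 2) = θ by ring] at h4
    rw [h4, this]
    ring
  have hpi := Real.pi_pos
  have h5 : 2 / Real.pi * (θ / 2) = θ / Real.pi := by field_simp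
  rw [h5] at h2
  rw [h3]
  have h6 : 0 ≤ θ / Real.pi := by positivity
  have h7 : (θ / Real.pi) ^ 2 ≤ Real.sin (θ / 2) ^ 2 := pow_le_pow_left₀ h6 h2 2
  rw [div_pow] at h7
  have h8 : 2 * θ ^ 2 / Real.pi ^ 2 = 2 * (θ ^ 2 / Real.pi ^ 2) := by ring
  rw [h8]
  linarith

lemma pi_sq_le : Real.pi ^ 2 ≤ 10 := by
  have h1 := Real.pi_lt_d2
  have h2 := Real.pi_pos
  nlinarith

lemma expD_le {x θ : ℝ} (hx : 0 < x) (hx1 : x ≤ 1) (hθ : 0 < θ) (hθπ : θ ≤ Real.pi) {N : ℕ}
    (hN : 8 ≤ x ^ 3 * (N : ℝ) ^ 2) :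
    Real.exp (-∑ j ∈ Icc 1 N, Real.exp (-x) ^ j * (1 - Real.cos (j * θ))) ≤
      131220 * (x ^ 3 / θ ^ 2) := by
  set r := Real.exp (-x) with hr
  have hr0 : 0 < r := Real.exp_pos _
  have hr1 : r < 1 := by rw [hr, Real.exp_lt_one_iff]; linarith
  have hr3 : 1 / 3 ≤ r := by
    have h1 := Real.exp_one_lt_d9
    have h2 : Real.exp (-1) ≤ r := Real.exp_le_exp.mpr (by linarith)
    have h3 : 1 / 3 ≤ Real.exp (-1) := by
      rw [Real.exp_neg, one_div]
      exact inv_anti₀ (Real.exp_pos _) (by linarith)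
    linarith
  have h1r : 1 - r ≤ x := by
    have := Real.add_one_le_exp (-x)
    linarith
  have h1r2 : x / 2 ≤ 1 - r := by
    have h1 := one_sub_exp_ge hx
    have h2 : x / 2 ≤ x / (1 + x) := div_le_div_of_nonneg_left hx.le (by linarith) (by linarith)
    linarith
  have hNpos : (0 : ℝ) < N := by
    rcases Nat.eq_zero_or_pos N with h | h
    · subst h; simp at hN; linarith
    · exact_mod_cast h
  -- the tail
  have htail : 2 * r ^ (N + 1) / (1 - r) ≤ 1 := by
    have h2 : r ^ (N + 1) ≤ 2 / ((N : ℝ) * x) ^ 2 := by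
      have h3 : r ^ (N + 1) ≤ r ^ N := pow_le_pow_of_le_one hr0.le hr1.le (by omega)
      have h4 : r ^ N = Real.exp (-((N : ℝ) * x)) := by
        rw [hr, ← Real.exp_nat_mul]; congr 1; ring
      rw [h4] at h3
      exact h3.trans (exp_neg_le_sq (by positivity))
    rw [div_le_one (by linarith)]
    have h5 : 2 * (2 / ((N : ℝ) * x) ^ 2) ≤ x / 2 := by
      rw [← mul_div_assoc, div_le_iff₀ (by positivity)]
      nlinarith
    linarith
  have h3 := sum_cos_ge hr0.le hr1 θ N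
  set s := 1 - Real.cos θ with hs
  have hsge := one_sub_cos_ge hθ.le hθπ
  rw [← hs] at hsge
  have hpi := Real.pi_pos
  have hs0 : 0 < s := lt_of_lt_of_le (by positivity) hsge
  set D := r * (1 + r) * s / ((1 - r) * ((1 - r) ^ 2 + 2 * r * s)) with hD
  have hDge : s / 3 / (x * (x ^ 2 + 2 * s)) ≤ D := by
    rw [hD]
    have hden : 0 < (1 - r) * ((1 - r) ^ 2 + 2 * r * s) := by
      apply mul_pos (by linarith)
      positivity
    apply div_le_div₀ (by positivity) _ hden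
    · apply mul_le_mul h1r _ (by positivity) hx.le
      have h4 : (1 - r) ^ 2 ≤ x ^ 2 := pow_le_pow_left₀ (by linarith) h1r 2
      have h5 : 2 * r * s ≤ 2 * s := by nlinarith
      linarith
    · have h6 : 1 / 3 ≤ r * (1 + r) := by nlinarith
      nlinarith
  have hmain : Real.exp (-D) ≤ 43740 * (x ^ 3 / θ ^ 2) := by
    rcases le_or_gt s (x ^ 2) with hc | hc
    · have h4 : s / (9 * x ^ 3) ≤ s / 3 / (x * (x ^ 2 + 2 * s)) := by
        rw [div_div]
        apply div_le_div_of_nonneg_left hs0.le (by positivity)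
        nlinarith
      have h5 : Real.exp (-D) ≤ Real.exp (-(s / (9 * x ^ 3))) := Real.exp_le_exp.mpr (by linarith)
      have h6 := exp_neg_le_inv (u := s / (9 * x ^ 3)) (by positivity)
      have h7 : 1 / (s / (9 * x ^ 3)) = 9 * x ^ 3 / s := by rw [one_div_div]
      have h8 : 9 * x ^ 3 / s ≤ 9 * x ^ 3 / (2 * θ ^ 2 / Real.pi ^ 2) :=
        div_le_div_of_nonneg_left (by positivity) (by positivity) hsge
      have h9 : 9 * x ^ 3 / (2 * θ ^ 2 / Real.pi ^ 2) = 9 / 2 * Real.pi ^ 2 * (x ^ 3 / θ ^ 2) := by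
        field_simp
      have h10 : 0 < x ^ 3 / θ ^ 2 := by positivity
      have h11 := pi_sq_le
      have h12 : 9 / 2 * Real.pi ^ 2 * (x ^ 3 / θ ^ 2) ≤ 43740 * (x ^ 3 / θ ^ 2) :=
        mul_le_mul_of_nonneg_right (by linarith) h10.le
      linarith
    · have h4 : 1 / (9 * x) ≤ s / 3 / (x * (x ^ 2 + 2 * s)) := by
        rw [div_div, div_le_div_iff₀ (by positivity) (by positivity)]
        nlinarith
      have h5 : Real.exp (-D) ≤ Real.exp (-(1 / (9 * x))) := Real.exp_le_exp.mpr (by linarith)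
      have h6 := exp_neg_le_cube (u := 1 / (9 * x)) (by positivity)
      have h7 : 6 / (1 / (9 * x)) ^ 3 = 4374 * x ^ 3 := by
        field_simp
        norm_num
      have h8 : θ ^ 2 ≤ 10 := by
        have := pi_sq_le
        have h9 : θ ^ 2 ≤ Real.pi ^ 2 := pow_le_pow_left₀ hθ.le hθπ 2
        linarith
      have h9 : 4374 * x ^ 3 ≤ 43740 * (x ^ 3 / θ ^ 2) := by
        rw [← mul_div_assoc, le_div_iff₀ (by positivity)]
        have : 0 < x ^ 3 := by positivity
        nlinarith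
      linarith
  have hexp1 : Real.exp 1 ≤ 3 := by
    have := Real.exp_one_lt_d9
    linarith
  calc Real.exp (-∑ j ∈ Icc 1 N, r ^ j * (1 - Real.cos (j * θ)))
      ≤ Real.exp (1 + -D) := Real.exp_le_exp.mpr (by linarith)
    _ = Real.exp 1 * Real.exp (-D) := Real.exp_add _ _
    _ ≤ 3 * (43740 * (x ^ 3 / θ ^ 2)) :=
        mul_le_mul hexp1 hmain (Real.exp_pos _).le (by norm_num)
    _ = 131220 * (x ^ 3 / θ ^ 2) := by ring

lemma cont_HH (N m : ℕ) {r : ℝ} (h0 : 0 ≤ r) (h1 : r < 1) : Continuous (HH N m r) := by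
  have hz : Continuous (zz r) := by unfold zz; fun_prop
  have hF : Continuous fun θ => FN N (zz r θ) := by
    unfold FN
    apply continuous_finsetProd
    intro j hj
    apply Continuous.inv₀
    · fun_prop
    · intro θ h
      have h2 : zz r θ ^ j = 1 := by linear_combination -h
      have h3 : ‖zz r θ ^ j‖ < 1 := by
        rw [norm_pow, norm_zz h0]
        exact pow_lt_one₀ h0 h1 (by have := (mem_Icc.mp hj).1; omega)
      rw [h2, norm_one] at h3
      exact lt_irrefl _ h3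
  unfold HH
  fun_prop

lemma tail_int {x : ℝ} (hx : 0 < x) (hx1 : x ≤ 1) {N : ℕ} (hN : 8 ≤ x ^ 3 * (N : ℝ) ^ 2) (m : ℕ)
    {δ : ℝ} (hδ : 0 < δ) (hδπ : δ ≤ Real.pi) :
    |∫ θ in δ..Real.pi, HH N m (Real.exp (-x)) θ| ≤
      FR N (Real.exp (-x)) * (131220 * (x ^ 3 / δ)) := by
  set r := Real.exp (-x) with hr
  have hr0 : 0 < r := Real.exp_pos _
  have hr1 : r < 1 := by rw [hr, Real.exp_lt_one_iff]; linarith
  have hF := FR_pos N hr0.le hr1
  have hnot : (0 : ℝ) ∉ [[δ, Real.pi]] := by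
    rw [Set.uIcc_of_le hδπ]
    intro h
    have := h.1
    linarith
  have hint : IntervalIntegrable (fun θ : ℝ => FR N r * (131220 * x ^ 3) * θ ^ (-2 : ℤ)) volume δ
      Real.pi := by
    apply IntervalIntegrable.const_mul
    apply ContinuousOn.intervalIntegrable
    intro θ hθ
    apply ContinuousAt.continuousWithinAt
    apply continuousAt_zpow₀
    left
    rintro rfl
    exact hnot hθ
  have h1 := intervalIntegral.norm_integral_le_of_norm_le (μ := volume) hδπ
    (f := HH N m r) (g := fun θ : ℝ => FR N r * (131220 * x ^ 3) * θ ^ (-2 : ℤ))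
    (Eventually.of_forall fun θ hθ => by
      have h2 : 0 < θ := lt_of_lt_of_le hδ hθ.1.le
      have h3 := HH_le N m hr0.le hr1 θ
      have h4 := expD_le hx hx1 h2 hθ.2 hN
      rw [Real.norm_eq_abs]
      refine h3.trans ?_
      have h5 := mul_le_mul_of_nonneg_left h4 hF.le
      refine h5.trans (le_of_eq ?_)
      rw [zpow_neg]
      norm_cast
      rw [div_eq_mul_inv]
      ring) hint
  rw [Real.norm_eq_abs] at h1
  refine h1.trans ?_
  rw [intervalIntegral.integral_const_mul, integral_zpow (Or.inr ⟨by norm_num, hnot⟩)]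
  have h6 : (Real.pi ^ (-2 + 1 : ℤ) - δ ^ (-2 + 1 : ℤ)) / ((-2 : ℤ) + 1 : ℝ) = 1 / δ - 1 / Real.pi := by
    norm_num
    ring
  rw [h6]
  have h7 : 0 < 1 / Real.pi := by positivity
  have h8 : FR N r * (131220 * x ^ 3) * (1 / δ - 1 / Real.pi) ≤
      FR N r * (131220 * x ^ 3) * (1 / δ) :=
    mul_le_mul_of_nonneg_left (by linarith) (by positivity)
  refine h8.trans (le_of_eq ?_)
  ring

end Pool.Agent.R721.PN
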