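import Pool.Agent.R721.PN.Logs

set_option autoImplicit false

open Finset Filter Topology
open scoped BigOperators

namespace Pool.Agent.R721.PN

lemma inv_eq {ρ : ℝ} (h0 : 0 ≤ ρ) (h1 : ρ < 1) (α : ℝ) :
    (1 - (ρ : ℂ) * Complex.exp (α * Complex.I))⁻¹ =
      (((1 - ρ)⁻¹ : ℝ) : ℂ) * Complex.exp (gg ρ α + ((α * (ρ / (1 - ρ)) : ℝ) : ℂ) * Complex.I) := by
  have hne : (1 - (ρ : ℂ) * Complex.exp (α * Complex.I)) ≠ 0 := by
    intro h
    have h2 : (ρ : ℂ) * Complex.exp (α * Complex.I) = 1 := by linear_combination -h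
    have h3 : ‖(ρ : ℂ) * Complex.exp (α * Complex.I)‖ = ρ := by
      rw [norm_mul, Complex.norm_exp_ofReal_mul_I, mul_one, Complex.norm_real, Real.norm_eq_abs,
        abs_of_nonneg h0]
    rw [h2, norm_one] at h3
    linarith
  have hne2 : (1 - (ρ : ℂ)) ≠ 0 := by
    intro h
    have : (ρ : ℂ) = ((1 : ℝ) : ℂ) := by push_cast; linear_combination -h
    have := Complex.ofReal_injective this
    linarith
  have e1 : gg ρ α + ((α * (ρ / (1 - ρ)) : ℝ) : ℂ) * Complex.I =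
      -Complex.log (1 - (ρ : ℂ) * Complex.exp (α * Complex.I)) + Complex.log (1 - (ρ : ℂ)) := by
    unfold gg
    ring
  rw [e1, Complex.exp_add, Complex.exp_neg, Complex.exp_log hne, Complex.exp_log hne2]
  push_cast
  field_simp

lemma FN_eq (N : ℕ) {r : ℝ} (h0 : 0 ≤ r) (h1 : r < 1) (θ : ℝ) :
    FN N (zz r θ) = (FR N r : ℂ) * Complex.exp (∑ j ∈ Icc 1 N, gg (r ^ j) (j * θ) +
      ((θ * ∑ j ∈ Icc 1 N, (j : ℝ) * (r ^ j / (1 - r ^ j)) : ℝ) : ℂ) * Complex.I) := by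
  have e1 : ∀ j ∈ Icc 1 N, (1 - zz r θ ^ j)⁻¹ = (((1 - r ^ j)⁻¹ : ℝ) : ℂ) *
      Complex.exp (gg (r ^ j) (j * θ) +
        ((θ * ((j : ℝ) * (r ^ j / (1 - r ^ j))) : ℝ) : ℂ) * Complex.I) := by
    intro j hj
    have hj1 := (mem_Icc.mp hj).1
    have h2 := inv_eq (pow_nonneg h0 j) (pow_lt_one₀ h0 h1 (by omega)) (j * θ)
    have h3 : zz r θ ^ j = ((r ^ j : ℝ) : ℂ) * Complex.exp (((j * θ : ℝ) : ℂ) * Complex.I) := by
      unfold zz
      rw [mul_pow, ← Complex.exp_nat_mul]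
      push_cast
      congr 2
      ring
    rw [h3, h2]
    congr 4
    ring
  unfold FN FR
  rw [prod_congr rfl e1, prod_mul_distrib, ← Complex.exp_sum, sum_add_distrib, ← sum_mul]
  push_cast
  rw [mul_sum]

lemma norm_FN_le (N : ℕ) {r : ℝ} (h0 : 0 ≤ r) (h1 : r < 1) (θ : ℝ) :
    ‖FN N (zz r θ)‖ ≤ FR N r * Real.exp (-∑ j ∈ Icc 1 N, r ^ j * (1 - Real.cos (j * θ))) := by
  rw [FN_eq N h0 h1, norm_mul, Complex.norm_real, Real.norm_eq_abs, abs_of_pos (FR_pos N h0 h1),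
    Complex.norm_exp]
  apply mul_le_mul_of_nonneg_left _ (FR_pos N h0 h1).le
  apply Real.exp_le_exp.mpr
  rw [Complex.add_re, Complex.re_ofReal_mul, Complex.I_re, mul_zero, add_zero, Complex.re_sum,
    ← sum_neg_distrib]
  apply sum_le_sum
  intro j hj
  have hj1 := (mem_Icc.mp hj).1
  exact gg_re_le (pow_nonneg h0 j) (pow_lt_one₀ h0 h1 (by omega)) (j * θ)

lemma HH_le (N m : ℕ) {r : ℝ} (h0 : 0 ≤ r) (h1 : r < 1) (θ : ℝ) :
    |HH N m r θ| ≤ FR N r * Real.exp (-∑ j ∈ Icc 1 N, r ^ j * (1 - Real.cos (j * θ))) := by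
  refine (Complex.abs_re_le_norm _).trans ?_
  rw [norm_mul]
  have : ‖Complex.exp (-(m * θ : ℝ) * Complex.I)‖ = 1 := by
    have := Complex.norm_exp_ofReal_mul_I (-(m * θ))
    push_cast at this ⊢
    exact this
  rw [this, mul_one]
  exact norm_FN_le N h0 h1 θ

/-- lower bound for the integrand near `0`, when the mean is `n` -/
lemma HH_ge (N n : ℕ) {r : ℝ} (h0 : 0 ≤ r) (h1 : r < 1)
    (hmean : ∑ j ∈ Icc 1 N, (j : ℝ) * (r ^ j / (1 - r ^ j)) = n) (V T θ : ℝ)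
    (hV : ∑ j ∈ Icc 1 N, (j : ℝ) ^ 2 * (r ^ j / (1 - r ^ j) ^ 2) ≤ V)
    (hT : ∑ j ∈ Icc 1 N, 4 * (j : ℝ) ^ 3 * (r ^ j / (1 - r ^ j) ^ 3) ≤ T)
    (hθ : T * |θ| ^ 3 ≤ 1) :
    FR N r * (Real.exp (-(V * θ ^ 2 / 2)) * (1 / 2)) ≤ HH N n r θ := by
  have hpos := FR_pos N h0 h1
  set S : ℂ := ∑ j ∈ Icc 1 N, gg (r ^ j) (j * θ) with hS
  have e1 : HH N n r θ = FR N r * (Real.exp S.re * Real.cos S.im) := by
    unfold HH
    rw [FN_eq N h0 h1, hmean, mul_assoc, ← Complex.exp_add]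
    have : S + ((θ * (n : ℝ) : ℝ) : ℂ) * Complex.I + -((n * θ : ℝ) : ℂ) * Complex.I = S := by
      push_cast
      ring
    rw [this, Complex.re_ofReal_mul, Complex.exp_re]
  rw [e1]
  apply mul_le_mul_of_nonneg_left _ hpos.le
  have hre : -(V * θ ^ 2 / 2) ≤ S.re := by
    rw [hS, Complex.re_sum]
    have h2 : ∑ j ∈ Icc 1 N, -(((j : ℝ) * θ) ^ 2 / 2 * (r ^ j / (1 - r ^ j) ^ 2)) ≤
        ∑ j ∈ Icc 1 N, (gg (r ^ j) (j * θ)).re := by
      apply sum_le_sum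
      intro j hj
      have hj1 := (mem_Icc.mp hj).1
      exact gg_re_ge (pow_nonneg h0 j) (pow_lt_one₀ h0 h1 (by omega)) (j * θ)
    refine le_trans ?_ h2
    rw [sum_neg_distrib, neg_le_neg_iff]
    have h3 : ∑ j ∈ Icc 1 N, (((j : ℝ) * θ) ^ 2 / 2 * (r ^ j / (1 - r ^ j) ^ 2)) =
        (∑ j ∈ Icc 1 N, (j : ℝ) ^ 2 * (r ^ j / (1 - r ^ j) ^ 2)) * (θ ^ 2 / 2) := by
      rw [sum_mul]
      apply sum_congr rfl
      intro j _
      ring
    rw [h3, mul_div_assoc]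
    exact mul_le_mul_of_nonneg_right hV (by positivity)
  have him : |S.im| ≤ 1 := by
    refine le_trans ?_ hθ
    rw [hS, Complex.im_sum]
    refine (abs_sum_le_sum_abs _ _).trans ?_
    have h2 : ∑ j ∈ Icc 1 N, |(gg (r ^ j) (j * θ)).im| ≤
        ∑ j ∈ Icc 1 N, 4 * |(j : ℝ) * θ| ^ 3 * (r ^ j / (1 - r ^ j) ^ 3) := by
      apply sum_le_sum
      intro j hj
      have hj1 := (mem_Icc.mp hj).1
      exact gg_im_le (pow_nonneg h0 j) (pow_lt_one₀ h0 h1 (by omega)) (j * θ)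
    refine h2.trans ?_
    have h3 : ∑ j ∈ Icc 1 N, 4 * |(j : ℝ) * θ| ^ 3 * (r ^ j / (1 - r ^ j) ^ 3) =
        (∑ j ∈ Icc 1 N, 4 * (j : ℝ) ^ 3 * (r ^ j / (1 - r ^ j) ^ 3)) * |θ| ^ 3 := by
      rw [sum_mul]
      apply sum_congr rfl
      intro j _
      rw [abs_mul, Nat.abs_cast]
      ring
    rw [h3]
    exact mul_le_mul_of_nonneg_right hT (by positivity)
  have hcos : 1 / 2 ≤ Real.cos S.im := by
    have h2 := Real.one_sub_sq_div_two_le_cos (x := S.im)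
    have h3 : S.im ^ 2 ≤ 1 := by
      rw [← sq_abs]
      nlinarith [abs_nonneg S.im]
    linarith
  exact mul_le_mul (Real.exp_le_exp.mpr hre) hcos (by norm_num) (Real.exp_pos _).le

end Pool.Agent.R721.PN
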