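import Pool.Agent.R721.PN.Main

set_option autoImplicit false

open Finset Filter Topology MeasureTheory
open scoped BigOperators Interval
open Pool.Agent.H581R3.Core

namespace Pool.Agent.R721.PN

/-- upper bound for all coefficients -/
lemma coeff_upper {x : ℝ} (hx : 0 < x) (hx1 : x ≤ 1) {N : ℕ} (hN : 8 ≤ x ^ 3 * (N : ℝ) ^ 2)
    (m : ℕ) : Real.pi * ((pc N m : ℝ) * Real.exp (-x) ^ m) ≤
      FR N (Real.exp (-x)) * (131221 * (x * Real.sqrt x)) := by
  set r := Real.exp (-x) with hr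
  have hr0 : 0 < r := Real.exp_pos _
  have hr1 : r < 1 := by rw [hr, Real.exp_lt_one_iff]; linarith
  have hF := FR_pos N hr0.le hr1
  have hsx : 0 < Real.sqrt x := Real.sqrt_pos.mpr hx
  have hsx1 : Real.sqrt x ≤ 1 := by rw [Real.sqrt_le_one]; exact hx1
  set δ := x * Real.sqrt x with hδ
  have hδ0 : 0 < δ := by positivity
  have hδ1 : δ ≤ 1 := by
    rw [hδ]
    nlinarith
  have hδsq : δ ^ 2 = x ^ 3 := by
    rw [hδ, mul_pow, Real.sq_sqrt hx.le]; ring
  have hpi := Real.pi_gt_three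
  have hc := cont_HH N m hr0.le hr1
  rw [← coeff_formula N m hr0.le hr1,
    ← intervalIntegral.integral_add_adjacent_intervals (hc.intervalIntegrable 0 δ)
      (hc.intervalIntegrable δ Real.pi)]
  have h1 := tail_int hx hx1 hN m hδ0 (by linarith)
  have h2 : ‖∫ θ in (0:ℝ)..δ, HH N m r θ‖ ≤ FR N r * |δ - 0| := by
    apply intervalIntegral.norm_integral_le_of_norm_le_const
    intro θ _
    rw [Real.norm_eq_abs]
    refine (HH_le N m hr0.le hr1 θ).trans ?_
    apply mul_le_of_le_one_right hF.le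
    rw [Real.exp_le_one_iff, neg_nonpos]
    apply sum_nonneg
    intro j _
    have := Real.cos_le_one (j * θ)
    exact mul_nonneg (pow_nonneg hr0.le _) (by linarith)
  rw [sub_zero, abs_of_pos hδ0, Real.norm_eq_abs] at h2
  have h3 := le_abs_self (∫ θ in (0:ℝ)..δ, HH N m r θ)
  have h4 := le_abs_self (∫ θ in δ..Real.pi, HH N m r θ)
  have h5 : x ^ 3 / δ = δ := by
    rw [← hδsq]; field_simp
  rw [h5] at h1
  calc _ ≤ FR N r * δ + FR N r * (131220 * δ) := by linarith
    _ = FR N r * (131221 * δ) := by ring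

/-- the constant of the window -/
noncomputable def KK : ℝ := 13122000

lemma coeff_lower {x : ℝ} (hx : 0 < x) (hx1 : x ≤ 1) (hxK : 640 * KK ^ 3 * Real.sqrt x ≤ 1)
    {N : ℕ} (hN : 8 ≤ x ^ 3 * (N : ℝ) ^ 2) (n : ℕ)
    (hmean : ∑ j ∈ Icc 1 N, (j : ℝ) * (Real.exp (-x) ^ j / (1 - Real.exp (-x) ^ j)) = n) :
    FR N (Real.exp (-x)) * ((x * Real.sqrt x) / 100) ≤
      Real.pi * ((pc N n : ℝ) * Real.exp (-x) ^ n) := by
  set r := Real.exp (-x) with hr
  have hr0 : 0 < r := Real.exp_pos _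
  have hr1 : r < 1 := by rw [hr, Real.exp_lt_one_iff]; linarith
  have hF := FR_pos N hr0.le hr1
  have hsx : 0 < Real.sqrt x := Real.sqrt_pos.mpr hx
  have hsx1 : Real.sqrt x ≤ 1 := by rw [Real.sqrt_le_one]; exact hx1
  have hK : KK = 13122000 := rfl
  set w := x * Real.sqrt x with hw
  have hw0 : 0 < w := by positivity
  have hwsq : w ^ 2 = x ^ 3 := by
    rw [hw, mul_pow, Real.sq_sqrt hx.le]; ring
  have hpi := Real.pi_gt_three
  have hc := cont_HH N n hr0.le hr1
  set V : ℝ := 160 / x ^ 3 with hV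
  set T : ℝ := 640 / x ^ 4 with hT
  have hVb : ∑ j ∈ Icc 1 N, (j : ℝ) ^ 2 * (r ^ j / (1 - r ^ j) ^ 2) ≤ V :=
    moment_le hx (k := 2) (by norm_num) N
  have hTb : ∑ j ∈ Icc 1 N, 4 * (j : ℝ) ^ 3 * (r ^ j / (1 - r ^ j) ^ 3) ≤ T := by
    have h1 := moment_le hx (k := 3) (by norm_num) N
    have h2 : ∑ j ∈ Icc 1 N, 4 * (j : ℝ) ^ 3 * (r ^ j / (1 - r ^ j) ^ 3) =
        4 * ∑ j ∈ Icc 1 N, (j : ℝ) ^ 3 * (r ^ j / (1 - r ^ j) ^ 3) := by
      rw [mul_sum]
      apply sum_congr rfl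
      intro j _
      ring
    rw [h2, hT]
    have h3 : 4 * (160 / x ^ (3 + 1)) = 640 / x ^ 4 := by ring
    linarith
  set δ := KK * w with hδ
  set η := w / 16 with hη
  have hη0 : 0 < η := by positivity
  have hδ0 : 0 < δ := by rw [hδ, hK]; positivity
  have hηδ : η ≤ δ := by rw [hη, hδ, hK]; linarith
  have hTδ : T * δ ^ 3 ≤ 1 := by
    have h1 : T * δ ^ 3 = 640 * KK ^ 3 * Real.sqrt x := by
      rw [hT, hδ, hw]
      have h2 : Real.sqrt x ^ 3 = x * Real.sqrt x := by
        rw [pow_succ, Real.sq_sqrt hx.le]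
      rw [mul_pow, mul_pow, h2]
      field_simp
    rw [h1]
    exact hxK
  have hδ1 : δ ≤ 1 := by
    have h1 : 1 ≤ T := by
      rw [hT, le_div_iff₀ (by positivity)]
      have : x ^ 4 ≤ 1 := pow_le_one₀ hx.le hx1
      linarith
    have h2 : δ ^ 3 ≤ 1 := by nlinarith [pow_pos hδ0 3]
    by_contra h
    push Not at h
    have : 1 < δ ^ 3 := one_lt_pow₀ h (by norm_num)
    linarith
  have hge : ∀ θ, 0 ≤ θ → θ ≤ δ →
      FR N r * (Real.exp (-(V * θ ^ 2 / 2)) * (1 / 2)) ≤ HH N n r θ := by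
    intro θ h0 h1
    apply HH_ge N n hr0.le hr1 hmean V T θ hVb hTb
    rw [abs_of_nonneg h0]
    have h2 : θ ^ 3 ≤ δ ^ 3 := pow_le_pow_left₀ h0 h1 3
    have hT0 : 0 ≤ T := by rw [hT]; positivity
    exact (mul_le_mul_of_nonneg_left h2 hT0).trans hTδ
  rw [← coeff_formula N n hr0.le hr1,
    ← intervalIntegral.integral_add_adjacent_intervals (hc.intervalIntegrable 0 δ)
      (hc.intervalIntegrable δ Real.pi),
    ← intervalIntegral.integral_add_adjacent_intervals (hc.intervalIntegrable 0 η)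
      (hc.intervalIntegrable η δ)]
  have h1 : FR N r * (1 / 3) * η ≤ ∫ θ in (0:ℝ)..η, HH N n r θ := by
    have h2 : ∫ _ in (0:ℝ)..η, FR N r * (1 / 3) = FR N r * (1 / 3) * η := by
      rw [intervalIntegral.integral_const, sub_zero, smul_eq_mul]; ring
    rw [← h2]
    apply intervalIntegral.integral_mono_on hη0.le _root_.intervalIntegrable_const
      (hc.intervalIntegrable 0 η)
    intro θ hθ
    refine le_trans ?_ (hge θ hθ.1 (hθ.2.trans hηδ))
    apply mul_le_mul_of_nonneg_left _ hF.le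
    have h3 : V * θ ^ 2 / 2 ≤ 160 / 512 := by
      have h4 : θ ^ 2 ≤ η ^ 2 := pow_le_pow_left₀ hθ.1 hθ.2 2
      have h5 : V * η ^ 2 / 2 = 160 / 512 := by
        rw [hV, hη, div_pow, hwsq]
        field_simp
        norm_num
      have hV0 : 0 ≤ V := by rw [hV]; positivity
      have := mul_le_mul_of_nonneg_left h4 hV0
      linarith
    have h6 := Real.add_one_le_exp (-(V * θ ^ 2 / 2))
    linarith
  have h2 : 0 ≤ ∫ θ in η..δ, HH N n r θ := by
    apply intervalIntegral.integral_nonneg hηδ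
    intro θ hθ
    refine le_trans ?_ (hge θ (hη0.le.trans hθ.1) hθ.2)
    positivity
  have h3 := tail_int hx hx1 hN n hδ0 (by linarith)
  have h4 : x ^ 3 / δ = w / KK := by
    rw [← hwsq, hδ]
    rw [hK]
    field_simp
  rw [h4, hK] at h3
  have h5 := neg_abs_le (∫ θ in δ..Real.pi, HH N n r θ)
  have h6 : FR N r * (131220 * (w / 13122000)) = FR N r * w * (1 / 100) := by ring
  rw [h6] at h3
  have h7 : FR N r * (1 / 3) * η = FR N r * w * (1 / 48) := by rw [hη]; ring
  rw [h7] at h1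
  have h8 : 0 < FR N r * w := by positivity
  calc FR N r * (w / 100) = FR N r * w * (1 / 100) := by ring
    _ ≤ FR N r * w * (1 / 48) - FR N r * w * (1 / 100) := by linarith
    _ ≤ _ := by linarith

/-- the mean -/
noncomputable def mean (N : ℕ) (x : ℝ) : ℝ :=
  ∑ j ∈ Icc 1 N, (j : ℝ) * (Real.exp (-x) ^ j / (1 - Real.exp (-x) ^ j))

lemma mean_cont (N : ℕ) {a b : ℝ} (ha : 0 < a) : ContinuousOn (mean N) (Set.Icc a b) := by
  unfold mean
  apply continuousOn_finsetSum
  intro j hj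
  have hj1 := (mem_Icc.mp hj).1
  apply ContinuousOn.mul continuousOn_const
  apply ContinuousOn.div
  · fun_prop
  · fun_prop
  · intro x hx h
    have hx0 : 0 < x := lt_of_lt_of_le ha hx.1
    have h1 : Real.exp (-x) ^ j < 1 :=
      pow_lt_one₀ (Real.exp_pos _).le (by rw [Real.exp_lt_one_iff]; linarith) (by omega)
    linarith

lemma mean_upper (N n : ℕ) (hn : 1 ≤ n) : mean N (13 / Real.sqrt n) ≤ n := by
  have hn' : (0 : ℝ) < n := by positivity
  have hs : 0 < Real.sqrt n := Real.sqrt_pos.mpr hn'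
  have h1 := moment_le (x := 13 / Real.sqrt n) (by positivity) (k := 1) (by norm_num) N
  simp only [pow_one] at h1
  unfold mean
  refine h1.trans ?_
  rw [div_pow, Real.sq_sqrt hn'.le, div_div_eq_mul_div, div_le_iff₀ (by norm_num)]
  have h2 : (13 : ℝ) ^ (1 + 1) = 169 := by norm_num
  rw [h2]
  linarith

lemma mean_lower (N n : ℕ) (hn : 4 ≤ n) (hN : n ≤ N) : (n : ℝ) ≤ mean N (1 / (4 * Real.sqrt n)) := by
  have hn' : (4 : ℝ) ≤ n := by exact_mod_cast hn
  have hs : 0 < Real.sqrt n := Real.sqrt_pos.mpr (by linarith)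
  have hss : Real.sqrt n * Real.sqrt n = n := Real.mul_self_sqrt (by linarith)
  set a := 1 / (4 * Real.sqrt n) with ha
  have ha0 : 0 < a := by positivity
  set J := Nat.sqrt n with hJ
  have hJN : J ≤ N := (Nat.sqrt_le_self n).trans hN
  have hJle : (J : ℝ) ≤ Real.sqrt n := by
    rw [hJ]; exact Real.nat_sqrt_le_real_sqrt
  have hJge : Real.sqrt n ≤ J + 1 := by
    rw [hJ]; exact Real.real_sqrt_le_nat_sqrt_succ
  have h2s : 2 ≤ Real.sqrt n := by
    rw [Real.le_sqrt (by norm_num) (by linarith)]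
    linarith
  have hterm : ∀ j ∈ Icc 1 J, 3 * Real.sqrt n ≤
      (j : ℝ) * (Real.exp (-a) ^ j / (1 - Real.exp (-a) ^ j)) := by
    intro j hj
    obtain ⟨hj1, hj2⟩ := mem_Icc.mp hj
    have hj0 : (0 : ℝ) < j := by positivity
    have hjJ : (j : ℝ) ≤ J := by exact_mod_cast hj2
    have e1 : Real.exp (-a) ^ j = Real.exp (-(j * a)) := by
      rw [← Real.exp_nat_mul]; congr 1; ring
    rw [e1]
    have h1 : (j : ℝ) * a ≤ 1 / 4 := by
      have h2 : (j : ℝ) * a ≤ Real.sqrt n * a := mul_le_mul_of_nonneg_right (hjJ.trans hJle) ha0.le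
      have h3 : Real.sqrt n * a = 1 / 4 := by rw [ha]; field_simp
      linarith
    have h4 := Real.add_one_le_exp (-(j * a))
    have h5 : Real.exp (-(j * a)) < 1 := by
      rw [Real.exp_lt_one_iff]
      have : 0 < (j : ℝ) * a := by positivity
      linarith
    have h6 : 3 / 4 / (j * a) ≤ Real.exp (-(j * a)) / (1 - Real.exp (-(j * a))) :=
      div_le_div₀ (Real.exp_pos _).le (by linarith) (by linarith) (by linarith)
    have h7 := mul_le_mul_of_nonneg_left h6 hj0.le
    refine le_trans (le_of_eq ?_) h7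
    rw [ha]
    field_simp
  have h1 : ∑ j ∈ Icc 1 J, 3 * Real.sqrt n ≤ mean N a := by
    unfold mean
    refine (sum_le_sum hterm).trans ?_
    apply sum_le_sum_of_subset_of_nonneg (Icc_subset_Icc le_rfl hJN)
    intro j hj _
    have hj1 := (mem_Icc.mp hj).1
    have h2 : Real.exp (-a) ^ j < 1 :=
      pow_lt_one₀ (Real.exp_pos _).le (by rw [Real.exp_lt_one_iff]; linarith) (by omega)
    have h3 : 0 < Real.exp (-a) ^ j := by positivity
    have h4 : 0 < 1 - Real.exp (-a) ^ j := by linarith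
    positivity
  refine le_trans ?_ h1
  rw [sum_const, Nat.card_Icc, nsmul_eq_mul, Nat.add_sub_cancel]
  nlinarith

/-- local regularity of the partition numbers -/
theorem regularity : ∃ C : ℝ, 0 < C ∧ ∃ n0 : ℕ, ∀ n : ℕ, n0 ≤ n → ∃ x : ℝ, 0 < x ∧
    1 / (4 * Real.sqrt n) ≤ x ∧ x ≤ 13 / Real.sqrt n ∧ ∀ m : ℕ, m ≤ 3 * n →
      (numPartitions m : ℝ) ≤ C * Real.exp (x * ((m : ℝ) - n)) * numPartitions n := by
  set ε : ℝ := 1 / (640 * KK ^ 3) with hε
  have hK : KK = 13122000 := rfl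
  have hε0 : 0 < ε := by rw [hε, hK]; positivity
  refine ⟨13122100, by norm_num, max 4000 (Nat.ceil ((13 / ε ^ 2) ^ 2)), ?_⟩
  intro n hn
  have hn1 : 4000 ≤ n := (le_max_left _ _).trans hn
  have hn1' : (4000 : ℝ) ≤ n := by exact_mod_cast hn1
  have hn2 : (13 / ε ^ 2) ^ 2 ≤ (n : ℝ) := by
    refine (Nat.le_ceil _).trans ?_
    exact_mod_cast (le_max_right _ _).trans hn
  have hs : 0 < Real.sqrt n := Real.sqrt_pos.mpr (by linarith)
  have hss : Real.sqrt n * Real.sqrt n = n := Real.mul_self_sqrt (by linarith)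
  have hs60 : 60 ≤ Real.sqrt n := by
    rw [Real.le_sqrt (by norm_num) (by linarith)]
    linarith
  have hab : 1 / (4 * Real.sqrt n) ≤ 13 / Real.sqrt n := by
    rw [div_le_div_iff₀ (by positivity) hs]
    linarith
  obtain ⟨x, ⟨hx1, hx2⟩, hmean⟩ := intermediate_value_Icc' hab
    (mean_cont (3 * n) (by positivity)) ⟨mean_upper (3 * n) n (by omega),
      mean_lower (3 * n) n (by omega) (by omega)⟩
  have hx0 : 0 < x := lt_of_lt_of_le (by positivity) hx1
  refine ⟨x, hx0, hx1, hx2, ?_⟩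
  intro m hm
  have hxle1 : x ≤ 1 := by
    refine hx2.trans ?_
    rw [div_le_one hs]
    linarith
  have hxK : 640 * KK ^ 3 * Real.sqrt x ≤ 1 := by
    have h1 : Real.sqrt x ≤ ε := by
      rw [Real.sqrt_le_left hε0.le]
      refine hx2.trans ?_
      rw [div_le_iff₀ hs]
      have h2 : 13 / ε ^ 2 ≤ Real.sqrt n := by
        rw [Real.le_sqrt (by positivity) (by linarith)]
        exact hn2
      rw [div_le_iff₀ (by positivity)] at h2
      linarith
    have h3 : 0 < 640 * KK ^ 3 := by rw [hK]; norm_num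
    calc 640 * KK ^ 3 * Real.sqrt x ≤ 640 * KK ^ 3 * ε := mul_le_mul_of_nonneg_left h1 h3.le
      _ = 1 := by rw [hε]; field_simp
  have hN : 8 ≤ x ^ 3 * ((3 * n : ℕ) : ℝ) ^ 2 := by
    have h1 : (1 / (4 * Real.sqrt n)) ^ 3 ≤ x ^ 3 := pow_le_pow_left₀ (by positivity) hx1 3
    have h2 : (1 / (4 * Real.sqrt n)) ^ 3 * ((3 * n : ℕ) : ℝ) ^ 2 = 9 / 64 * Real.sqrt n := by
      push_cast
      have h3 : (n : ℝ) ^ 2 = Real.sqrt n ^ 4 := by
        rw [show Real.sqrt (n : ℝ) ^ 4 = (Real.sqrt n * Real.sqrt n) ^ 2 by ring, hss]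
      rw [mul_pow, h3]
      field_simp
      norm_num
    have h4 := mul_le_mul_of_nonneg_right h1 (by positivity : (0:ℝ) ≤ ((3 * n : ℕ) : ℝ) ^ 2)
    linarith
  have hup := coeff_upper hx0 hxle1 hN m
  have hlo := coeff_lower hx0 hxle1 hxK hN n hmean
  rw [pc_eq hm] at hup
  rw [pc_eq (by omega)] at hlo
  have hpi := Real.pi_pos
  have h1 : Real.pi * ((numPartitions m : ℝ) * Real.exp (-x) ^ m) ≤
      13122100 * (Real.pi * ((numPartitions n : ℝ) * Real.exp (-x) ^ n)) := by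
    have h2 : FR (3 * n) (Real.exp (-x)) * (131221 * (x * Real.sqrt x)) =
        13122100 * (FR (3 * n) (Real.exp (-x)) * ((x * Real.sqrt x) / 100)) := by ring
    rw [h2] at hup
    linarith
  have h2 : (numPartitions m : ℝ) * Real.exp (-x) ^ m ≤
      13122100 * ((numPartitions n : ℝ) * Real.exp (-x) ^ n) := by
    have h3 : Real.pi * ((numPartitions m : ℝ) * Real.exp (-x) ^ m) ≤
      Real.pi * (13122100 * ((numPartitions n : ℝ) * Real.exp (-x) ^ n)) := by linarith
    exact le_of_mul_le_mul_left h3 hpi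
  have e1 : Real.exp (-x) ^ m = Real.exp (-(x * m)) := by
    rw [← Real.exp_nat_mul]; congr 1; ring
  have e2 : Real.exp (-x) ^ n = Real.exp (-(x * n)) := by
    rw [← Real.exp_nat_mul]; congr 1; ring
  rw [e1, e2] at h2
  have h3 := mul_le_mul_of_nonneg_right h2 (Real.exp_pos (x * m)).le
  have h4 : (numPartitions m : ℝ) * Real.exp (-(x * m)) * Real.exp (x * m) = numPartitions m := by
    rw [mul_assoc, ← Real.exp_add]
    simp
  have h5 : 13122100 * ((numPartitions n : ℝ) * Real.exp (-(x * n))) * Real.exp (x * m) =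
      13122100 * Real.exp (x * ((m : ℝ) - n)) * numPartitions n := by
    have : Real.exp (x * ((m : ℝ) - n)) = Real.exp (-(x * n)) * Real.exp (x * m) := by
      rw [← Real.exp_add]; congr 1; ring
    rw [this]
    ring
  rw [h4, h5] at h3
  exact h3

end Pool.Agent.R721.PN
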