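import Pool.Agent.R721.PN.Reg
import Pool.Agent.R721.PN.Cores

set_option autoImplicit false

open Finset Filter Topology
open scoped BigOperators
open Pool.Agent.H581R3.Core

namespace Pool.Agent.R721.PN

lemma inv_one_sub_exp {x : ℝ} (hx : 0 < x) (hx1 : x ≤ 1) : 1 / (1 - Real.exp (-x)) ≤ 2 / x := by
  have h1 := one_sub_exp_ge hx
  have h2 : x / 2 ≤ x / (1 + x) := div_le_div_of_nonneg_left hx.le (by linarith) (by linarith)
  rw [div_le_div_iff₀ (by linarith) hx]
  linarith

lemma geom_head {x U : ℝ} (hx : 0 < x) (hx1 : x ≤ 1) (n : ℕ) :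
    ∑ t ∈ Icc 1 n, (if x * t ≤ U then Real.exp (-((U - x * t) / 2)) else 0) ≤ 4 / x := by
  rcases lt_or_ge U 0 with hU | hU
  · have : ∑ t ∈ Icc 1 n, (if x * t ≤ U then Real.exp (-((U - x * t) / 2)) else 0) = 0 := by
      apply sum_eq_zero
      intro t _
      rw [if_neg]
      have : 0 ≤ x * (t : ℝ) := by positivity
      linarith
    rw [this]
    positivity
  · set M := Nat.floor (U / x) with hM
    have hMU : x * M ≤ U := by
      have := Nat.floor_le (a := U / x) (by positivity)
      rw [le_div_iff₀ hx] at this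
      rw [← hM] at this
      linarith
    have h1 : ∑ t ∈ Icc 1 n, (if x * t ≤ U then Real.exp (-((U - x * t) / 2)) else 0) ≤
        ∑ t ∈ range (M + 1), Real.exp (-(x / 2)) ^ (M - t) := by
      rw [← sum_filter]
      have hsub : (Icc 1 n).filter (fun t : ℕ => x * (t : ℝ) ≤ U) ⊆ range (M + 1) := by
        intro t ht
        rw [mem_filter] at ht
        rw [mem_range, Nat.lt_succ_iff, hM]
        apply Nat.le_floor
        rw [le_div_iff₀ hx]
        linarith [ht.2]
      refine le_trans ?_ (sum_le_sum_of_subset_of_nonneg hsub (fun i _ _ => by positivity))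
      apply sum_le_sum
      intro t ht
      have htM := mem_range.mp (hsub ht)
      rw [← Real.exp_nat_mul]
      apply Real.exp_le_exp.mpr
      rw [Nat.cast_sub (by omega)]
      nlinarith
    refine h1.trans ?_
    have hrefl : ∑ t ∈ range (M + 1), Real.exp (-(x / 2)) ^ (M - t) =
        ∑ k ∈ range (M + 1), Real.exp (-(x / 2)) ^ k := by
      rw [← sum_range_reflect (fun k => Real.exp (-(x / 2)) ^ k) (M + 1)]
      apply sum_congr rfl
      intro t _
      have : M + 1 - 1 - t = M - t := by omega
      rw [this]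
    rw [hrefl]
    have h2 : Real.exp (-(x / 2)) < 1 := by rw [Real.exp_lt_one_iff]; linarith
    have h3 : ∑ k ∈ range (M + 1), Real.exp (-(x / 2)) ^ k ≤ 1 / (1 - Real.exp (-(x / 2))) := by
      rw [geom_sum_eq h2.ne]
      have h5 : (Real.exp (-(x / 2)) ^ (M + 1) - 1) / (Real.exp (-(x / 2)) - 1) =
          (1 - Real.exp (-(x / 2)) ^ (M + 1)) / (1 - Real.exp (-(x / 2))) := by
        rw [← neg_div_neg_eq, neg_sub, neg_sub]
      rw [h5]
      have h6 := pow_pos (Real.exp_pos (-(x / 2))) (M + 1)
      apply div_le_div_of_nonneg_right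
      · linarith
      · linarith
    refine h3.trans ?_
    have h4 := inv_one_sub_exp (x := x / 2) (by positivity) (by linarith)
    refine h4.trans (le_of_eq ?_)
    field_simp
    norm_num

lemma exp_over_sq {u U : ℝ} (hu : 1 / 2 ≤ u) (huU : u ≤ U) :
    Real.exp u / u ^ 2 ≤ 42 * (Real.exp U / U ^ 2) * Real.exp (-((U - u) / 2)) := by
  set d := U - u with hd
  have hd0 : 0 ≤ d := by linarith
  have hU : U = u + d := by linarith
  have h1 : U ^ 2 ≤ (1 + 2 * d) ^ 2 * u ^ 2 := by
    rw [← mul_pow]
    apply pow_le_pow_left₀ (by linarith)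
    nlinarith
  have h2 : (1 + 2 * d) ^ 2 ≤ 42 * Real.exp (d / 2) := by
    have h3 := Real.pow_div_factorial_le_exp ((1 + 2 * d) / 4) (by linarith) 2
    have h7 : ((2 : ℕ).factorial : ℝ) = 2 := by norm_num [Nat.factorial]
    rw [h7] at h3
    have h4 : Real.exp ((1 + 2 * d) / 4) = Real.exp (1 / 4) * Real.exp (d / 2) := by
      rw [← Real.exp_add]; congr 1; ring
    have h5 : Real.exp (1 / 4) ≤ 13 / 10 := by
      have h6 : Real.exp (1 / 4) ^ 4 = Real.exp 1 := by
        rw [← Real.exp_nat_mul]; congr 1; norm_num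
      have h8 := Real.exp_one_lt_d9
      by_contra h
      push Not at h
      have : (13 / 10 : ℝ) ^ 4 < Real.exp (1 / 4) ^ 4 := pow_lt_pow_left₀ h (by norm_num) (by norm_num)
      rw [h6] at this
      norm_num at this
      linarith
    have h9 : Real.exp (1 / 4) * Real.exp (d / 2) ≤ 13 / 10 * Real.exp (d / 2) :=
      mul_le_mul_of_nonneg_right h5 (Real.exp_pos _).le
    rw [h4] at h3
    nlinarith
  have hu0 : 0 < u := by linarith
  have hU0 : 0 < U := by linarith
  have h3 : Real.exp U * Real.exp (-(d / 2)) = Real.exp u * Real.exp (d / 2) := by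
    rw [← Real.exp_add, ← Real.exp_add]; congr 1; rw [hU]; ring
  have h4 : 42 * (Real.exp U / U ^ 2) * Real.exp (-(d / 2)) =
      Real.exp u * (42 * Real.exp (d / 2)) / U ^ 2 := by
    have : 42 * (Real.exp U / U ^ 2) * Real.exp (-(d / 2)) =
        42 * (Real.exp U * Real.exp (-(d / 2))) / U ^ 2 := by ring
    rw [this, h3]
    ring
  rw [h4, div_le_div_iff₀ (by positivity) (by positivity), mul_assoc]
  apply mul_le_mul_of_nonneg_left _ (Real.exp_pos u).le
  calc U ^ 2 ≤ (1 + 2 * d) ^ 2 * u ^ 2 := h1
    _ ≤ 42 * Real.exp (d / 2) * u ^ 2 := mul_le_mul_of_nonneg_right h2 (by positivity)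

/-- the bound at a given `n` -/
theorem zII_at {C x : ℝ} (hC : 1 ≤ C) {n : ℕ} (hx : 0 < x) (hx4 : x ≤ 1 / 4)
    (hxn : 1 / x ≤ n)
    (hreg : ∀ m : ℕ, m ≤ 3 * n →
      (numPartitions m : ℝ) ≤ C * Real.exp (x * ((m : ℝ) - n)) * numPartitions n) :
    zII n ≤ 1000 * C ^ 2 / Real.log (1 / x) := by
  set P : ℝ := (numPartitions n : ℝ) with hP
  have hP0 : 0 < P := by rw [hP]; exact_mod_cast numPartitions_pos n
  set A : ℝ := 1 / x with hA
  have hA4 : 4 ≤ A := by
    rw [hA, le_div_iff₀ hx]; linarith
  have hAx : x * A = 1 := by rw [hA]; field_simp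
  set L : ℝ := Real.log A with hL
  have hL1 : 1 ≤ L := by
    rw [hL, Real.le_log_iff_exp_le (by linarith)]
    have := Real.exp_one_lt_d9
    linarith
  have hLA : L ≤ A := by
    have := Real.log_le_sub_one_of_pos (show 0 < A by linarith)
    linarith
  set U : ℝ := L + Real.log L with hU
  have hUL : L ≤ U := by
    have := Real.log_nonneg hL1
    linarith
  have hexpU : Real.exp U = A * L := by
    rw [hU, Real.exp_add, Real.exp_log (by linarith), hL, Real.exp_log (by linarith)]
  -- the three majorants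
  let a : ℕ → ℝ := fun t => if (t : ℝ) ≤ A / 2 then 128 * C ^ 2 / A ^ 2 else 0
  let b : ℕ → ℝ := fun t => 4 * C ^ 2 * x ^ 2 * (42 * (Real.exp U / U ^ 2)) *
    (if x * t ≤ U then Real.exp (-((U - x * t) / 2)) else 0)
  let c : ℕ → ℝ := fun t => C * (if U < x * t then Real.exp (-(x * t)) else 0)
  have ha0 : ∀ t, 0 ≤ a t := by
    intro t
    simp only [a]
    split_ifs <;> positivity
  have hU0 : 0 < U := by linarith
  have hb0 : ∀ t, 0 ≤ b t := by
    intro t
    simp only [b]
    apply mul_nonneg (by positivity)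
    split_ifs
    · exact (Real.exp_pos _).le
    · exact le_rfl
  have hc0 : ∀ t, 0 ≤ c t := by
    intro t
    simp only [c]
    apply mul_nonneg (by linarith)
    split_ifs
    · exact (Real.exp_pos _).le
    · exact le_rfl
  have hr : ∀ t ∈ Icc 1 n, (numPartitions (n - t) : ℝ) / P ≤ C * Real.exp (-(x * t)) := by
    intro t ht
    obtain ⟨h1, h2⟩ := mem_Icc.mp ht
    rw [div_le_iff₀ hP0]
    have h3 := hreg (n - t) (by omega)
    have h4 : x * (((n - t : ℕ) : ℝ) - n) = -(x * t) := by
      rw [Nat.cast_sub h2]; ring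
    rw [h4] at h3
    exact h3
  have hk1 : ∀ t, (numCores t n : ℝ) / P ≤ 1 := by
    intro t
    rw [div_le_one hP0, hP]
    exact_mod_cast numCores_le t n
  have hk2 : ∀ t, 2 ≤ t → t ≤ n → (numCores t n : ℝ) / P ≤ 4 * C * Real.exp (2 * (x * t)) / (t : ℝ) ^ 2 := by
    intro t h2 htn
    have h1 := cores_choose_le t n 2 (by omega)
    have h3 := hreg (n + 2 * t) (by omega)
    have ht2 : (2 : ℝ) ≤ t := by exact_mod_cast h2
    have h4 : x * (((n + 2 * t : ℕ) : ℝ) - n) = 2 * (x * t) := by push_cast; ring
    rw [h4] at h3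
    have h5 : ((t.choose 2 * numCores t n : ℕ) : ℝ) ≤ (numPartitions (n + 2 * t) : ℝ) := by
      exact_mod_cast h1
    push_cast at h5
    rw [Nat.cast_choose_two] at h5
    have h6 : (t : ℝ) ^ 2 / 4 ≤ (t : ℝ) * (t - 1) / 2 := by nlinarith
    have h7 : (0 : ℝ) ≤ numCores t n := by positivity
    have h8 : (t : ℝ) ^ 2 / 4 * numCores t n ≤ C * Real.exp (2 * (x * t)) * P :=
      (mul_le_mul_of_nonneg_right h6 h7).trans (h5.trans h3)
    rw [div_le_div_iff₀ hP0 (by positivity)]
    linarith
  have hterm : ∀ t ∈ Icc 1 n, (numCores t n : ℝ) * numPartitions (n - t) / P ^ 2 ≤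
      a t + b t + c t := by
    intro t ht
    obtain ⟨h1, h2⟩ := mem_Icc.mp ht
    have ht0 : (0 : ℝ) < t := by
      have : (1 : ℝ) ≤ t := by exact_mod_cast h1
      linarith
    have e1 : (numCores t n : ℝ) * numPartitions (n - t) / P ^ 2 =
        (numCores t n : ℝ) / P * ((numPartitions (n - t) : ℝ) / P) := by
      field_simp
    rw [e1]
    have hrt := hr t ht
    have hr0 : 0 ≤ (numPartitions (n - t) : ℝ) / P := by positivity
    have hk0 : 0 ≤ (numCores t n : ℝ) / P := by positivity
    have hE0 := Real.exp_pos (-(x * t))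
    by_cases hta : (t : ℝ) ≤ A / 2
    · -- small `t`
      have haeq : a t = 128 * C ^ 2 / A ^ 2 := by simp only [a]; rw [if_pos hta]
      set l := Nat.floor (A / t) with hl
      have hlt : (l : ℝ) * t ≤ A := by
        have := Nat.floor_le (a := A / t) (by positivity)
        rw [le_div_iff₀ ht0] at this
        exact this
      have hlt2 : A / 2 ≤ (l : ℝ) * t := by
        have h3 := Nat.lt_floor_add_one (A / t)
        rw [← hl, div_lt_iff₀ ht0] at h3
        nlinarith
      have hln : l * t ≤ n := by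
        have : ((l * t : ℕ) : ℝ) ≤ n := by push_cast; linarith
        exact_mod_cast this
      have hl2 : 2 ≤ l * t := by
        have : (2 : ℝ) ≤ ((l * t : ℕ) : ℝ) := by push_cast; linarith
        exact_mod_cast this
      have h3 : (numCores t n : ℝ) / P ≤ (numCores (l * t) n : ℝ) / P := by
        apply div_le_div_of_nonneg_right _ hP0.le
        exact_mod_cast numCores_mul t l n
      have h4 := hk2 (l * t) hl2 hln
      push_cast at h4
      have h5 : 4 * C * Real.exp (2 * (x * ((l : ℝ) * t))) / ((l : ℝ) * t) ^ 2 ≤ 4 * C * 8 / (A / 2) ^ 2 := by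
        apply div_le_div₀ (by positivity) _ (by positivity) (pow_le_pow_left₀ (by positivity) hlt2 2)
        apply mul_le_mul_of_nonneg_left _ (by linarith)
        have h6 : Real.exp (2 * (x * ((l : ℝ) * t))) ≤ Real.exp 2 := by
          apply Real.exp_le_exp.mpr
          have : x * ((l : ℝ) * t) ≤ x * A := mul_le_mul_of_nonneg_left hlt hx.le
          linarith
        have h7 : Real.exp 2 ≤ 8 := by
          have h8 : Real.exp 2 = Real.exp 1 ^ 2 := by rw [← Real.exp_nat_mul]; norm_num
          rw [h8]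
          have := Real.exp_one_lt_d9
          have := Real.exp_pos 1
          nlinarith
        linarith
      have h6 : (numPartitions (n - t) : ℝ) / P ≤ C := by
        refine hrt.trans ?_
        have : Real.exp (-(x * t)) ≤ 1 := by
          rw [Real.exp_le_one_iff]
          have : 0 ≤ x * (t : ℝ) := by positivity
          linarith
        nlinarith
      have h7 : (numCores t n : ℝ) / P * ((numPartitions (n - t) : ℝ) / P) ≤
          4 * C * 8 / (A / 2) ^ 2 * C :=
        mul_le_mul (h3.trans (h4.trans h5)) h6 hr0 (by positivity)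
      have h8 : 4 * C * 8 / (A / 2) ^ 2 * C = 128 * C ^ 2 / A ^ 2 := by
        field_simp
        norm_num
      rw [haeq]
      linarith [hb0 t, hc0 t]
    · push Not at hta
      by_cases htU : x * t ≤ U
      · -- the middle range
        have ht2 : 2 ≤ t := by
          have : (2 : ℝ) < t := by linarith
          exact_mod_cast this.le
        have h4 := hk2 t ht2 h2
        have hu : 1 / 2 ≤ x * t := by
          have : x * (A / 2) ≤ x * t := mul_le_mul_of_nonneg_left hta.le hx.le
          linarith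
        have h5 := exp_over_sq hu htU
        have h6 : (numCores t n : ℝ) / P * ((numPartitions (n - t) : ℝ) / P) ≤
            4 * C * Real.exp (2 * (x * t)) / (t : ℝ) ^ 2 * (C * Real.exp (-(x * t))) :=
          mul_le_mul h4 hrt hr0 (by positivity)
        have h7 : 4 * C * Real.exp (2 * (x * t)) / (t : ℝ) ^ 2 * (C * Real.exp (-(x * t))) =
            4 * C ^ 2 * x ^ 2 * (Real.exp (x * t) / (x * t) ^ 2) := by
          have h8 : Real.exp (2 * (x * t)) * Real.exp (-(x * t)) = Real.exp (x * t) := by
            rw [← Real.exp_add]; congr 1; ring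
          rw [← h8]
          field_simp
        have hbeq : b t = 4 * C ^ 2 * x ^ 2 * (42 * (Real.exp U / U ^ 2) * Real.exp (-((U - x * t) / 2))) := by
          simp only [b]
          rw [if_pos htU]
          ring
        rw [h7] at h6
        have h8 := mul_le_mul_of_nonneg_left h5 (by positivity : 0 ≤ 4 * C ^ 2 * x ^ 2)
        rw [← hbeq] at h8
        linarith [ha0 t, hc0 t]
      · -- large `t`
        push Not at htU
        have hceq : c t = C * Real.exp (-(x * t)) := by
          simp only [c]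
          rw [if_pos htU]
        have h6 : (numCores t n : ℝ) / P * ((numPartitions (n - t) : ℝ) / P) ≤
            1 * (C * Real.exp (-(x * t))) := mul_le_mul (hk1 t) hrt hr0 (by norm_num)
        rw [hceq]
        linarith [ha0 t, hb0 t]
  have hsumle : zII n ≤ ∑ t ∈ Icc 1 n, (a t + b t + c t) := by
    refine le_trans ?_ (sum_le_sum hterm)
    unfold zII
    rw [← sum_div]
    apply div_le_div_of_nonneg_right _ (by positivity)
    exact_mod_cast typeII_le n
  rw [sum_add_distrib, sum_add_distrib] at hsumle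
  have hsa : ∑ t ∈ Icc 1 n, a t ≤ 64 * C ^ 2 / L := by
    have h1 : ∑ t ∈ Icc 1 n, a t ≤ (A / 2) * (128 * C ^ 2 / A ^ 2) := by
      simp only [a]
      rw [← sum_filter, sum_const, nsmul_eq_mul]
      apply mul_le_mul_of_nonneg_right _ (by positivity)
      have h2 : (Icc 1 n).filter (fun t : ℕ => (t : ℝ) ≤ A / 2) ⊆ Icc 1 (Nat.floor (A / 2)) := by
        intro t ht
        rw [mem_filter, mem_Icc] at ht
        rw [mem_Icc]
        exact ⟨ht.1.1, Nat.le_floor ht.2⟩
      have h3 := card_le_card h2
      rw [Nat.card_Icc, Nat.add_sub_cancel] at h3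
      have h4 : (((Icc 1 n).filter (fun t : ℕ => (t : ℝ) ≤ A / 2)).card : ℝ) ≤ Nat.floor (A / 2) := by
        exact_mod_cast h3
      exact h4.trans (Nat.floor_le (by positivity))
    refine h1.trans ?_
    have h2 : (A / 2) * (128 * C ^ 2 / A ^ 2) = 64 * C ^ 2 / A := by
      field_simp
      norm_num
    rw [h2]
    exact div_le_div_of_nonneg_left (by positivity) (by linarith) hLA
  have hsb : ∑ t ∈ Icc 1 n, b t ≤ 672 * C ^ 2 / L := by
    simp only [b]
    rw [← mul_sum]
    have h1 := mul_le_mul_of_nonneg_left (geom_head (U := U) hx (by linarith) n)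
      (by positivity : 0 ≤ 4 * C ^ 2 * x ^ 2 * (42 * (Real.exp U / U ^ 2)))
    refine h1.trans ?_
    rw [hexpU]
    have h2 : 4 * C ^ 2 * x ^ 2 * (42 * (A * L / U ^ 2)) * (4 / x) = 672 * C ^ 2 * (x * A) * (L / U ^ 2) := by
      field_simp
      norm_num
    rw [h2, hAx, mul_one]
    have h3 : L / U ^ 2 ≤ 1 / L := by
      rw [div_le_div_iff₀ (by positivity) (by linarith)]
      nlinarith
    have h4 := mul_le_mul_of_nonneg_left h3 (by positivity : 0 ≤ 672 * C ^ 2)
    refine h4.trans (le_of_eq ?_)
    ring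
  have hsc : ∑ t ∈ Icc 1 n, c t ≤ 2 * C ^ 2 / L := by
    simp only [c]
    rw [← mul_sum]
    have h1 := geom_tail x U hx (n + 1)
    have h2 : ∑ t ∈ Icc 1 n, (if U < x * t then Real.exp (-(x * t)) else 0) ≤
        ∑ t ∈ range (n + 1), (if U < x * (t : ℝ) then Real.exp (-(x * t)) else 0) := by
      apply sum_le_sum_of_subset_of_nonneg
      · intro t ht
        rw [mem_range]
        have := (mem_Icc.mp ht).2
        omega
      · intro t _ _
        split_ifs
        · exact (Real.exp_pos _).le
        · exact le_rfl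
    have h3 : 0 < 1 - Real.exp (-x) := by
      have : Real.exp (-x) < 1 := by rw [Real.exp_lt_one_iff]; linarith
      linarith
    have h4 : ∑ t ∈ range (n + 1), (if U < x * (t : ℝ) then Real.exp (-(x * t)) else 0) ≤
        Real.exp (-U) * (1 / (1 - Real.exp (-x))) := by
      rw [mul_one_div, le_div_iff₀ h3]
      refine h1.trans ?_
      have := Real.exp_pos (-(max U (x * ((n + 1 : ℕ) : ℝ))))
      linarith
    have h5 : Real.exp (-U) * (1 / (1 - Real.exp (-x))) ≤ Real.exp (-U) * (2 / x) :=
      mul_le_mul_of_nonneg_left (inv_one_sub_exp hx (by linarith)) (Real.exp_pos _).le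
    have h6 : Real.exp (-U) * (2 / x) = 2 / L := by
      rw [Real.exp_neg, hexpU]
      have : 2 / x = 2 * A := by rw [hA]; ring
      rw [this]
      field_simp
    have h7 : C * ∑ t ∈ Icc 1 n, (if U < x * t then Real.exp (-(x * t)) else 0) ≤ C * (2 / L) := by
      apply mul_le_mul_of_nonneg_left _ (by linarith)
      linarith
    refine h7.trans ?_
    rw [← mul_div_assoc]
    apply div_le_div_of_nonneg_right _ (by linarith)
    nlinarith
  have hfin : 64 * C ^ 2 / L + 672 * C ^ 2 / L + 2 * C ^ 2 / L ≤ 1000 * C ^ 2 / L := by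
    rw [← add_div, ← add_div]
    apply div_le_div_of_nonneg_right _ (by linarith)
    nlinarith [sq_nonneg C]
  linarith

end Pool.Agent.R721.PN
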