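import Pool.Agent.R721.PN.Lim

set_option autoImplicit false

open Pool.Agent.H581R3.Core

namespace Pool.Agent.R721.PN

/-- `chi` is an irreducible complex character of the group `G` -/
def IsIrrChar {G : Type} [Group G] (chi : G → ℂ) : Prop :=
  ∃ (V : Type) (_ : AddCommGroup V) (_ : Module ℂ V) (_ : FiniteDimensional ℂ V)
    (rho : Representation ℂ G V), rho.IsIrreducible ∧ chi = rho.character

/-- the zero entries of the character table of `S_n`: pairs of an irreducible character and a
conjugacy class on which it vanishes -/
def tableZeros (n : ℕ) : Set ((Equiv.Perm (Fin n) → ℂ) × ConjClasses (Equiv.Perm (Fin n))) :=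
  {x | IsIrrChar x.1 ∧ ∀ g : Equiv.Perm (Fin n), ConjClasses.mk g = x.2 → x.1 g = 0}

/-- the density `z(S_n)` of zeros in the character table of `S_n` -/
noncomputable def zTable (n : ℕ) : ℝ :=
  ((tableZeros n).ncard : ℝ) / (numPartitions n : ℝ) ^ 2

end Pool.Agent.R721.PN
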